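import Mathlib

/-! Differentiation of integral functionals along curves that are once differentiable in time
and twice in space. -/

open Set Filter Topology MeasureTheory

namespace Pool.Agent.R732.Net

/-- `u` is of class `C^{2,1}` on `(0,∞) × [0,1]`, with the derivatives `ux`, `uxx`, `ut`. -/
structure CData (u ux uxx ut : ℝ → ℝ → ℂ) : Prop where
  hx : ∀ t > 0, ∀ x ∈ Icc (0:ℝ) 1, HasDerivWithinAt (u t) (ux t x) (Icc 0 1) x
  hxx : ∀ t > 0, ∀ x ∈ Icc (0:ℝ) 1, HasDerivWithinAt (ux t) (uxx t x) (Icc 0 1) x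
  ht : ∀ t > 0, ∀ x ∈ Icc (0:ℝ) 1, HasDerivAt (fun s => u s x) (ut t x) t
  cx : ContinuousOn (fun p : ℝ × ℝ => ux p.1 p.2) (Ioi 0 ×ˢ Icc 0 1)
  cxx : ContinuousOn (fun p : ℝ × ℝ => uxx p.1 p.2) (Ioi 0 ×ˢ Icc 0 1)
  ct : ContinuousOn (fun p : ℝ × ℝ => ut p.1 p.2) (Ioi 0 ×ˢ Icc 0 1)

lemma hasDerivAt_squeeze {f A B : ℝ → ℝ} {t D : ℝ} (hA : HasDerivAt A D t)
    (hB : HasDerivAt B D t) (h0A : A t = 0) (h0B : B t = 0)
    (hl : ∀ᶠ s in 𝓝 t, A s ≤ f s - f t) (hu : ∀ᶠ s in 𝓝 t, f s - f t ≤ B s) :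
    HasDerivAt f D t := by
  rw [hasDerivAt_iff_isLittleO] at *
  have h := hA.norm_left.add hB.norm_left
  refine Asymptotics.IsBigO.trans_isLittleO ?_ h
  refine Asymptotics.IsBigO.of_bound 1 ?_
  filter_upwards [hl, hu] with s h1 h2
  simp only [h0A, h0B, sub_zero, smul_eq_mul, Real.norm_eq_abs, one_mul]
  rw [abs_of_nonneg (a := |A s - (s - t) * D| + |B s - (s - t) * D|) (by positivity)]
  rw [abs_le]
  constructor
  · have := neg_abs_le (A s - (s - t) * D)
    have := abs_nonneg (B s - (s - t) * D)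
    linarith
  · have := le_abs_self (B s - (s - t) * D)
    have := abs_nonneg (A s - (s - t) * D)
    linarith

lemma hasDerivAt_inner_zero {Y w : ℝ → ℂ} {w' : ℂ} {t : ℝ} (hY : ContinuousAt Y t)
    (hw : HasDerivAt w w' t) (h0 : w t = 0) :
    HasDerivAt (fun s => inner ℝ (Y s) (w s)) (inner ℝ (Y t) w') t := by
  rw [hasDerivAt_iff_tendsto_slope] at *
  have h1 : Tendsto Y (𝓝[≠] t) (𝓝 (Y t)) := hY.tendsto.mono_left nhdsWithin_le_nhds
  have h2 := h1.inner (𝕜 := ℝ) hw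
  refine h2.congr (fun s => ?_)
  simp only [slope_def_module, h0, inner_zero_right, sub_zero, smul_eq_mul, inner_smul_right]

lemma exists_bound_near {Y : ℝ → ℝ → ℂ} {a b t : ℝ} (ht : t ∈ Ioo a b)
    (hY : ContinuousOn (fun p : ℝ × ℝ => Y p.1 p.2) (Ioo a b ×ˢ Icc 0 1)) :
    ∃ C ≥ 0, ∃ r > 0, Icc (t - r) (t + r) ⊆ Ioo a b ∧
      ∀ s ∈ Icc (t - r) (t + r), ∀ x ∈ Icc (0:ℝ) 1, ‖Y s x‖ ≤ C := by
  obtain ⟨r, hr, hsub⟩ : ∃ r > 0, Icc (t - r) (t + r) ⊆ Ioo a b := by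
    refine ⟨min ((t - a) / 2) ((b - t) / 2), ?_, ?_⟩
    · have := ht.1; have := ht.2
      exact lt_min (by linarith) (by linarith)
    · intro s hs
      have h1 := min_le_left ((t - a) / 2) ((b - t) / 2)
      have h2 := min_le_right ((t - a) / 2) ((b - t) / 2)
      have := ht.1; have := ht.2
      constructor
      · have := hs.1; linarith
      · have := hs.2; linarith
  have hc : IsCompact (Icc (t - r) (t + r) ×ˢ Icc (0:ℝ) 1) := isCompact_Icc.prod isCompact_Icc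
  obtain ⟨C, hC⟩ := hc.exists_bound_of_continuousOn
    (hY.mono (prod_mono hsub (Subset.refl _)))
  refine ⟨max C 0, le_max_right _ _, r, hr, hsub, fun s hs x hx => ?_⟩
  exact (hC (s, x) ⟨hs, hx⟩).trans (le_max_left _ _)

lemma slice_cont {E : Type*} [TopologicalSpace E] {Y : ℝ → ℝ → E} {J : Set ℝ} {s : ℝ} (hs : s ∈ J)
    (hY : ContinuousOn (fun p : ℝ × ℝ => Y p.1 p.2) (J ×ˢ Icc 0 1)) :
    ContinuousOn (Y s) (Icc 0 1) := by
  have : Y s = (fun p : ℝ × ℝ => Y p.1 p.2) ∘ (fun x => (s, x)) := rfl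
  rw [this]
  exact hY.comp (by fun_prop) (fun x hx => ⟨hs, hx⟩)

lemma slice_cont_t {E : Type*} [TopologicalSpace E] {Y : ℝ → ℝ → E} {J : Set ℝ} {x : ℝ}
    (hx : x ∈ Icc (0:ℝ) 1) (hY : ContinuousOn (fun p : ℝ × ℝ => Y p.1 p.2) (J ×ˢ Icc 0 1)) :
    ContinuousOn (fun s => Y s x) J := by
  have : (fun s => Y s x) = (fun p : ℝ × ℝ => Y p.1 p.2) ∘ (fun s => (s, x)) := rfl
  rw [this]
  exact hY.comp (by fun_prop) (fun s hs => ⟨hs, hx⟩)

lemma hasDerivAt_integral_inner {u ux uxx ut : ℝ → ℝ → ℂ} (hu : CData u ux uxx ut)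
    {Y : ℝ → ℝ → ℂ} {a b t : ℝ} (ha : 0 ≤ a) (ht : t ∈ Ioo a b)
    (hY : ContinuousOn (fun p : ℝ × ℝ => Y p.1 p.2) (Ioo a b ×ˢ Icc 0 1)) :
    HasDerivAt (fun s => ∫ x in (0:ℝ)..1, inner ℝ (Y s x) (u s x - u t x))
      (∫ x in (0:ℝ)..1, inner ℝ (Y t x) (ut t x)) t := by
  have hpos : ∀ s ∈ Ioo a b, 0 < s := fun s hs => ha.trans_lt hs.1
  have hsubI : Ioo a b ⊆ Ioi 0 := fun s hs => hpos s hs
  obtain ⟨C1, hC1, r1, hr1, hsub1, hb1⟩ := exists_bound_near ht hY
  obtain ⟨C2, hC2, r2, hr2, hsub2, hb2⟩ := exists_bound_near ht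
    (hu.ct.mono (prod_mono hsubI (Subset.refl _)))
  have hIoc : uIoc (0:ℝ) 1 ⊆ Icc 0 1 := by
    rw [uIoc_of_le zero_le_one]; exact Ioc_subset_Icc_self
  rw [hasDerivAt_iff_tendsto_slope]
  have hslope : ∀ s, slope (fun s => ∫ x in (0:ℝ)..1, inner ℝ (Y s x) (u s x - u t x)) t s =
      ∫ x in (0:ℝ)..1, inner ℝ (Y s x) ((s - t)⁻¹ • (u s x - u t x)) := by
    intro s
    simp only [slope_def_module, sub_self, inner_zero_right, intervalIntegral.integral_zero,
      sub_zero, smul_eq_mul, inner_smul_right]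
    rw [intervalIntegral.integral_const_mul]
  rw [tendsto_congr hslope]
  have hnear : ∀ᶠ s in 𝓝[≠] t, s ∈ Icc (t - min r1 r2) (t + min r1 r2) := by
    apply nhdsWithin_le_nhds
    apply Icc_mem_nhds <;> [skip; skip]
    · have := lt_min hr1 hr2; linarith
    · have := lt_min hr1 hr2; linarith
  have hcu : ∀ s > 0, ContinuousOn (u s) (Icc 0 1) := fun s hs x hx =>
    (hu.hx s hs x hx).continuousWithinAt
  refine intervalIntegral.tendsto_integral_filter_of_dominated_convergence (fun _ => C1 * C2)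
    ?_ ?_ (by simp) ?_
  · filter_upwards [hnear] with s hs
    have hs1 : s ∈ Ioo a b := hsub1 ⟨by linarith [hs.1, min_le_left r1 r2],
      by linarith [hs.2, min_le_left r1 r2]⟩
    have hc : ContinuousOn (fun x => inner ℝ (Y s x) ((s - t)⁻¹ • (u s x - u t x))) (Icc 0 1) := by
      have h1 := slice_cont hs1 hY
      have h2 := hcu s (hpos s hs1)
      have h3 := hcu t (hpos t ht)
      fun_prop
    exact (hc.mono hIoc).aestronglyMeasurable measurableSet_uIoc
  · filter_upwards [hnear, self_mem_nhdsWithin] with s hs hne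
    refine Eventually.of_forall (fun x hx => ?_)
    have hx' := hIoc hx
    have hs1 : s ∈ Icc (t - r1) (t + r1) := ⟨by linarith [hs.1, min_le_left r1 r2],
      by linarith [hs.2, min_le_left r1 r2]⟩
    have hs2 : s ∈ Icc (t - r2) (t + r2) := ⟨by linarith [hs.1, min_le_right r1 r2],
      by linarith [hs.2, min_le_right r1 r2]⟩
    have h1 : ‖u s x - u t x‖ ≤ C2 * ‖s - t‖ := by
      refine Convex.norm_image_sub_le_of_norm_hasDerivWithin_le (f := fun s => u s x)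
        (f' := fun s => ut s x) (s := Icc (t - r2) (t + r2)) ?_ ?_ (convex_Icc _ _) ?_ hs2
      · intro s' hs'
        exact (hu.ht s' (hpos s' (hsub2 hs')) x hx').hasDerivWithinAt
      · intro s' hs'
        exact hb2 s' hs' x hx'
      · constructor <;> linarith
    have hst : 0 < ‖s - t‖ := by
      rw [norm_pos_iff]; exact sub_ne_zero.2 hne
    calc ‖inner ℝ (Y s x) ((s - t)⁻¹ • (u s x - u t x))‖
        ≤ ‖Y s x‖ * ‖(s - t)⁻¹ • (u s x - u t x)‖ := norm_inner_le_norm _ _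
      _ ≤ C1 * C2 := by
        apply mul_le_mul (hb1 s hs1 x hx') _ (norm_nonneg _) hC1
        rw [norm_smul, norm_inv, inv_mul_le_iff₀ hst]
        linarith
  · refine Eventually.of_forall (fun x hx => ?_)
    have hx' := hIoc hx
    have h1 : Tendsto (fun s => Y s x) (𝓝[≠] t) (𝓝 (Y t x)) :=
      ((slice_cont_t hx' hY).continuousAt (isOpen_Ioo.mem_nhds ht)).tendsto.mono_left
        nhdsWithin_le_nhds
    have h2 := hasDerivAt_iff_tendsto_slope.1 (hu.ht t (hpos t ht) x hx')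
    have h3 := h1.inner (𝕜 := ℝ) h2
    simpa only [slope_def_module] using h3

/-- Fundamental theorem of calculus on `[0,1]`. -/
lemma ftc {f f' : ℝ → ℝ} (h : ∀ x ∈ Icc (0:ℝ) 1, HasDerivWithinAt f (f' x) (Icc 0 1) x)
    (hc : ContinuousOn f' (Icc 0 1)) : ∫ x in (0:ℝ)..1, f' x = f 1 - f 0 := by
  apply intervalIntegral.integral_eq_sub_of_hasDerivAt_of_le zero_le_one
  · exact fun x hx => (h x hx).continuousWithinAt
  · intro x hx
    exact (h x (Ioo_subset_Icc_self hx)).hasDerivAt (Icc_mem_nhds hx.1 hx.2)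
  · apply ContinuousOn.intervalIntegrable
    rwa [uIcc_of_le zero_le_one]

lemma intervalIntegrable_of_cont {E : Type*} [NormedAddCommGroup E] {f : ℝ → E}
    (hc : ContinuousOn f (Icc 0 1)) : IntervalIntegrable f volume 0 1 := by
  apply ContinuousOn.intervalIntegrable
  rwa [uIcc_of_le zero_le_one]

/-- The first variation formula, for integrands `g` satisfying a subgradient inequality. -/
lemma first_variation {u ux uxx ut : ℝ → ℝ → ℂ} (hu : CData u ux uxx ut)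
    {a b : ℝ} (ha : 0 ≤ a) {g : ℂ → ℝ} {X : ℝ → ℝ → ℂ} {Z : ℝ → ℝ → ℂ}
    (hX : ∀ s ∈ Ioo a b, ∀ x ∈ Icc (0:ℝ) 1, HasDerivWithinAt (X s) (Z s x) (Icc 0 1) x)
    (cX : ContinuousOn (fun p : ℝ × ℝ => X p.1 p.2) (Ioo a b ×ˢ Icc 0 1))
    (cZ : ContinuousOn (fun p : ℝ × ℝ => Z p.1 p.2) (Ioo a b ×ˢ Icc 0 1))
    (cg : ContinuousOn (fun p : ℝ × ℝ => g (ux p.1 p.2)) (Ioo a b ×ˢ Icc 0 1))
    (hg : ∀ s ∈ Ioo a b, ∀ s' ∈ Ioo a b, ∀ x ∈ Icc (0:ℝ) 1,
      inner ℝ (X s x) (ux s' x - ux s x) ≤ g (ux s' x) - g (ux s x))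
    {t : ℝ} (ht : t ∈ Ioo a b) :
    HasDerivAt (fun s => ∫ x in (0:ℝ)..1, g (ux s x))
      (inner ℝ (X t 1) (ut t 1) - inner ℝ (X t 0) (ut t 0)
        - ∫ x in (0:ℝ)..1, inner ℝ (Z t x) (ut t x)) t := by
  have hpos : ∀ s ∈ Ioo a b, 0 < s := fun s hs => ha.trans_lt hs.1
  have h01 : (0:ℝ) ∈ Icc (0:ℝ) 1 := ⟨le_refl _, zero_le_one⟩
  have h11 : (1:ℝ) ∈ Icc (0:ℝ) 1 := ⟨zero_le_one, le_refl _⟩
  -- integration by parts
  have key : ∀ s1 ∈ Ioo a b, ∀ s2 ∈ Ioo a b, ∀ s3 ∈ Ioo a b,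
      ∫ x in (0:ℝ)..1, inner ℝ (X s1 x) (ux s2 x - ux s3 x) =
      inner ℝ (X s1 1) (u s2 1 - u s3 1) - inner ℝ (X s1 0) (u s2 0 - u s3 0)
        - ∫ x in (0:ℝ)..1, inner ℝ (Z s1 x) (u s2 x - u s3 x) := by
    intro s1 h1 s2 h2 s3 h3
    have hd : ∀ x ∈ Icc (0:ℝ) 1, HasDerivWithinAt
        (fun x => inner ℝ (X s1 x) (u s2 x - u s3 x))
        (inner ℝ (X s1 x) (ux s2 x - ux s3 x) + inner ℝ (Z s1 x) (u s2 x - u s3 x))
        (Icc 0 1) x := fun x hx =>
      (hX s1 h1 x hx).inner (𝕜 := ℝ)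
        ((hu.hx s2 (hpos _ h2) x hx).sub (hu.hx s3 (hpos _ h3) x hx))
    have c1 : ContinuousOn (X s1) (Icc 0 1) := slice_cont h1 cX
    have c2 : ContinuousOn (Z s1) (Icc 0 1) := slice_cont h1 cZ
    have c3 : ContinuousOn (ux s2) (Icc 0 1) := slice_cont (J := Ioi 0) (hpos _ h2) hu.cx
    have c4 : ContinuousOn (ux s3) (Icc 0 1) := slice_cont (J := Ioi 0) (hpos _ h3) hu.cx
    have c5 : ContinuousOn (u s2) (Icc 0 1) := fun x hx =>
      (hu.hx s2 (hpos _ h2) x hx).continuousWithinAt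
    have c6 : ContinuousOn (u s3) (Icc 0 1) := fun x hx =>
      (hu.hx s3 (hpos _ h3) x hx).continuousWithinAt
    have cA : ContinuousOn (fun x => (inner ℝ (X s1 x) (ux s2 x - ux s3 x) : ℝ)) (Icc 0 1) := by
      fun_prop
    have cB : ContinuousOn (fun x => (inner ℝ (Z s1 x) (u s2 x - u s3 x) : ℝ)) (Icc 0 1) := by
      fun_prop
    have h := ftc hd (cA.add cB)
    rw [intervalIntegral.integral_add (intervalIntegrable_of_cont cA)
      (intervalIntegrable_of_cont cB)] at h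
    linarith
  have hcontX : ∀ x ∈ Icc (0:ℝ) 1, ContinuousAt (fun s => X s x) t := fun x hx =>
    (slice_cont_t hx cX).continuousAt (isOpen_Ioo.mem_nhds ht)
  have hdu : ∀ x ∈ Icc (0:ℝ) 1, HasDerivAt (fun s => u s x - u t x) (ut t x) t := fun x hx =>
    (hu.ht t (hpos t ht) x hx).sub_const _
  refine hasDerivAt_squeeze
    (A := fun s => inner ℝ (X t 1) (u s 1 - u t 1) - inner ℝ (X t 0) (u s 0 - u t 0)
        - ∫ x in (0:ℝ)..1, inner ℝ (Z t x) (u s x - u t x))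
    (B := fun s => inner ℝ (X s 1) (u s 1 - u t 1) - inner ℝ (X s 0) (u s 0 - u t 0)
        - ∫ x in (0:ℝ)..1, inner ℝ (Z s x) (u s x - u t x)) ?_ ?_ (by simp) (by simp) ?_ ?_
  · refine ((hasDerivAt_inner_zero (Y := fun _ => X t 1) continuousAt_const
      (hdu 1 h11) (sub_self _)).sub (hasDerivAt_inner_zero (Y := fun _ => X t 0) continuousAt_const
      (hdu 0 h01) (sub_self _))).sub ?_
    refine hasDerivAt_integral_inner hu ha ht (Y := fun _ x => Z t x) ?_
    have : (fun p : ℝ × ℝ => Z t p.2) = (Z t) ∘ Prod.snd := rfl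
    rw [this]
    exact (slice_cont ht cZ).comp continuous_snd.continuousOn (fun p hp => hp.2)
  · refine ((hasDerivAt_inner_zero (Y := fun s => X s 1) (hcontX 1 h11)
      (hdu 1 h11) (sub_self _)).sub (hasDerivAt_inner_zero (Y := fun s => X s 0) (hcontX 0 h01)
      (hdu 0 h01) (sub_self _))).sub ?_
    exact hasDerivAt_integral_inner hu ha ht cZ
  · filter_upwards [isOpen_Ioo.mem_nhds ht] with s hs
    rw [← key t ht s hs t ht,
      ← intervalIntegral.integral_sub (intervalIntegrable_of_cont (slice_cont (Y := fun s x => g (ux s x)) hs cg))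
      (intervalIntegrable_of_cont (slice_cont (Y := fun s x => g (ux s x)) ht cg))]
    refine intervalIntegral.integral_mono_on zero_le_one ?_ ?_ (fun x hx => hg t ht s hs x hx)
    · apply intervalIntegrable_of_cont
      have c1 : ContinuousOn (X t) (Icc 0 1) := slice_cont ht cX
      have c3 : ContinuousOn (ux s) (Icc 0 1) := slice_cont (J := Ioi 0) (hpos _ hs) hu.cx
      have c4 : ContinuousOn (ux t) (Icc 0 1) := slice_cont (J := Ioi 0) (hpos _ ht) hu.cx
      fun_prop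
    · exact (intervalIntegrable_of_cont (slice_cont (Y := fun s x => g (ux s x)) hs cg)).sub
        (intervalIntegrable_of_cont (slice_cont (Y := fun s x => g (ux s x)) ht cg))
  · filter_upwards [isOpen_Ioo.mem_nhds ht] with s hs
    rw [← key s hs s hs t ht,
      ← intervalIntegral.integral_sub (intervalIntegrable_of_cont (slice_cont (Y := fun s x => g (ux s x)) hs cg))
      (intervalIntegrable_of_cont (slice_cont (Y := fun s x => g (ux s x)) ht cg))]
    refine intervalIntegral.integral_mono_on zero_le_one ?_ ?_ (fun x hx => ?_)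
    · exact (intervalIntegrable_of_cont (slice_cont (Y := fun s x => g (ux s x)) hs cg)).sub
        (intervalIntegrable_of_cont (slice_cont (Y := fun s x => g (ux s x)) ht cg))
    · apply intervalIntegrable_of_cont
      have c1 : ContinuousOn (X s) (Icc 0 1) := slice_cont hs cX
      have c3 : ContinuousOn (ux s) (Icc 0 1) := slice_cont (J := Ioi 0) (hpos _ hs) hu.cx
      have c4 : ContinuousOn (ux t) (Icc 0 1) := slice_cont (J := Ioi 0) (hpos _ ht) hu.cx
      fun_prop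
    · have := hg s hs t ht x hx
      have h2 : inner ℝ (X s x) (ux t x - ux s x) = - inner ℝ (X s x) (ux s x - ux t x) := by
        rw [← inner_neg_right, neg_sub]
      linarith

end Pool.Agent.R732.Net
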