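import Pool.Agent.R732.Net.Functionals

/-! Curvature flow of networks: length, directions, barriers. -/

open Set Filter Topology MeasureTheory

namespace Pool.Agent.R732.Net

/-- Parameter of a curve end. -/
def par (b : Bool) : ℝ := cond b 1 0
/-- Sign of a curve end: `1` if the curve leaves the vertex, `-1` if it arrives. -/
def sgn (b : Bool) : ℝ := cond b (-1) 1

lemma par_mem (b : Bool) : par b ∈ Icc (0:ℝ) 1 := by
  cases b <;> simp [par]

lemma sgn_sq (b : Bool) : sgn b * sgn b = 1 := by cases b <;> simp [sgn]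

/-- Normalisation. -/
noncomputable def un (v : ℂ) : ℂ := (‖v‖⁻¹ : ℝ) • v

lemma norm_un {v : ℂ} (hv : v ≠ 0) : ‖un v‖ = 1 := by
  rw [un, norm_smul, norm_inv, norm_norm, inv_mul_cancel₀ (norm_ne_zero_iff.2 hv)]

lemma norm_smul_un {v : ℂ} (hv : v ≠ 0) : ‖v‖ • un v = v := by
  rw [un, smul_smul, mul_inv_cancel₀ (norm_ne_zero_iff.2 hv), one_smul]

/-- A network flow, in terms of curve ends and vertices. The vertices in `Bd` are the fixed
end-points, the other ones are 3-points. -/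
structure AFlow {ι W : Type*} [Fintype ι] [Fintype W] [DecidableEq W]
    (u ux uxx ut : ι → ℝ → ℝ → ℂ) (vtx : ι × Bool → W) (p : W → ℝ → ℂ) (Bd : Set W) : Prop where
  data : ∀ i, CData (u i) (ux i) (uxx i) (ut i)
  reg : ∀ i, ∀ t > 0, ∀ x ∈ Icc (0:ℝ) 1, ux i t x ≠ 0
  mot : ∀ i, ∀ t > 0, ∀ x ∈ Icc (0:ℝ) 1, Moves (ux i t x) (uxx i t x) (ut i t x)
  pos : ∀ e : ι × Bool, ∀ t > 0, u e.1 t (par e.2) = p (vtx e) t
  fix : ∀ w ∈ Bd, ∀ t > 0, p w t = p w 1
  bal : ∀ w ∉ Bd, ∀ t > 0,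
    ∑ e ∈ Finset.univ.filter (fun e => vtx e = w), sgn e.2 • un (ux e.1 t (par e.2)) = 0
  deg : ∀ w ∉ Bd, (Finset.univ.filter (fun e => vtx e = w)).card = 3

variable {ι W : Type*} [Fintype ι] [Fintype W] [DecidableEq W]
  {u ux uxx ut : ι → ℝ → ℝ → ℂ} {vtx : ι × Bool → W} {p : W → ℝ → ℂ} {Bd : Set W}

lemma sum_ends (vtx : ι × Bool → W) (f : ι × Bool → ℝ)
    (h : ∀ w, ∑ e ∈ Finset.univ.filter (fun e => vtx e = w), sgn e.2 * f e = 0) :
    ∑ i, (f (i, true) - f (i, false)) = 0 := by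
  have h1 : ∑ e : ι × Bool, sgn e.2 * f e = 0 := by
    rw [← Finset.sum_fiberwise Finset.univ vtx]
    exact Finset.sum_eq_zero (fun w _ => h w)
  rw [Fintype.sum_prod_type] at h1
  simp only [Fintype.sum_bool, sgn, cond_true, cond_false] at h1
  have : ∑ i, (f (i, true) - f (i, false)) = - ∑ i, (-1 * f (i, true) + 1 * f (i, false)) := by
    rw [← Finset.sum_neg_distrib]
    exact Finset.sum_congr rfl (fun i _ => by ring)
  rw [this, h1, neg_zero]

namespace AFlow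

lemma vel (h : AFlow u ux uxx ut vtx p Bd) {t : ℝ} (ht : 0 < t) (e : ι × Bool) :
    ut e.1 t (par e.2) = deriv (p (vtx e)) t := by
  have h1 := (h.data e.1).ht t ht (par e.2) (par_mem _)
  have h2 : HasDerivAt (p (vtx e)) (ut e.1 t (par e.2)) t := by
    refine h1.congr_of_eventuallyEq ?_
    filter_upwards [lt_mem_nhds ht] with s hs
    exact (h.pos e s hs).symm
  exact h2.deriv.symm

lemma vel_bd (h : AFlow u ux uxx ut vtx p Bd) {t : ℝ} (ht : 0 < t) {w : W} (hw : w ∈ Bd) :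
    deriv (p w) t = 0 := by
  have h2 : HasDerivAt (p w) 0 t := by
    refine (hasDerivAt_const t (p w 1)).congr_of_eventuallyEq ?_
    filter_upwards [lt_mem_nhds ht] with s hs
    exact h.fix w hw s hs
  exact h2.deriv

lemma boundary_sum (h : AFlow u ux uxx ut vtx p Bd) {t : ℝ} (ht : 0 < t) (A : ι × Bool → ℂ)
    (hA : ∀ w ∉ Bd, ∑ e ∈ Finset.univ.filter (fun e => vtx e = w), sgn e.2 • A e = 0) :
    ∑ i, (inner ℝ (A (i, true)) (ut i t 1) - inner ℝ (A (i, false)) (ut i t 0)) = 0 := by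
  refine sum_ends vtx (fun e => inner ℝ (A e) (ut e.1 t (par e.2))) (fun w => ?_)
  have h1 : ∑ e ∈ Finset.univ.filter (fun e => vtx e = w),
      sgn e.2 * inner ℝ (A e) (ut e.1 t (par e.2)) =
      inner ℝ (∑ e ∈ Finset.univ.filter (fun e => vtx e = w), sgn e.2 • A e) (deriv (p w) t) := by
    rw [sum_inner]
    refine Finset.sum_congr rfl (fun e he => ?_)
    rw [real_inner_smul_left, h.vel ht e, (Finset.mem_filter.1 he).2]
  rw [h1]
  by_cases hw : w ∈ Bd
  · rw [h.vel_bd ht hw, inner_zero_right]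
  · rw [hA w hw, inner_zero_left]

/-- Total length. -/
noncomputable def Len (ux : ι → ℝ → ℝ → ℂ) (t : ℝ) : ℝ := ∑ i, ∫ x in (0:ℝ)..1, ‖ux i t x‖

/-- Total squared curvature. -/
noncomputable def KK (ux uxx : ι → ℝ → ℝ → ℂ) (t : ℝ) : ℝ :=
  ∑ i, ∫ x in (0:ℝ)..1, kap (ux i t x) (uxx i t x) ^ 2 * ‖ux i t x‖

omit [Fintype W] [DecidableEq W] in
lemma Len_nonneg (ux : ι → ℝ → ℝ → ℂ) (t : ℝ) : 0 ≤ Len ux t :=
  Finset.sum_nonneg (fun i _ => intervalIntegral.integral_nonneg zero_le_one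
    (fun x _ => norm_nonneg _))

omit [Fintype W] [DecidableEq W] in
lemma KKi_nonneg (ux uxx : ι → ℝ → ℝ → ℂ) (i : ι) (t : ℝ) :
    0 ≤ ∫ x in (0:ℝ)..1, kap (ux i t x) (uxx i t x) ^ 2 * ‖ux i t x‖ :=
  intervalIntegral.integral_nonneg zero_le_one (fun x _ => by positivity)

omit [Fintype W] [DecidableEq W] in
lemma KK_nonneg (ux uxx : ι → ℝ → ℝ → ℂ) (t : ℝ) : 0 ≤ KK ux uxx t :=
  Finset.sum_nonneg (fun i _ => KKi_nonneg ux uxx i t)

lemma Len_deriv (h : AFlow u ux uxx ut vtx p Bd) {t : ℝ} (ht : 0 < t) :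
    HasDerivAt (Len ux) (-KK ux uxx t) t := by
  have h1 : HasDerivAt (Len ux) (∑ i, (inner ℝ ((‖ux i t 1‖⁻¹ : ℝ) • ux i t 1) (ut i t 1)
      - inner ℝ ((‖ux i t 0‖⁻¹ : ℝ) • ux i t 0) (ut i t 0)
        - ∫ x in (0:ℝ)..1, kap (ux i t x) (uxx i t x) ^ 2 * ‖ux i t x‖)) t := by
    have := HasDerivAt.fun_sum (u := Finset.univ) (fun i _ =>
      length_deriv (h.data i) (h.reg i) (h.mot i) ht)
    exact this
  refine h1.congr_deriv ?_
  rw [Finset.sum_sub_distrib, KK]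
  have h2 := h.boundary_sum ht (fun e => un (ux e.1 t (par e.2))) (fun w hw => h.bal w hw t ht)
  simp only [par, cond_true, cond_false, un] at h2
  rw [h2, zero_sub]

lemma Len_anti (h : AFlow u ux uxx ut vtx p Bd) : AntitoneOn (Len ux) (Ioi 0) := by
  refine antitoneOn_of_deriv_nonpos (convex_Ioi 0)
    (fun t ht => (h.Len_deriv ht).continuousAt.continuousWithinAt) ?_ ?_
  · intro t ht
    rw [interior_Ioi] at ht
    exact (h.Len_deriv ht).differentiableAt.differentiableWithinAt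
  · intro t ht
    rw [interior_Ioi] at ht
    rw [(h.Len_deriv ht).deriv]
    linarith [KK_nonneg ux uxx t]

lemma exists_small_KK (h : AFlow u ux uxx ut vtx p Bd) {η T : ℝ} (hη : 0 < η) (hT : 0 < T) :
    ∃ t ≥ T, KK ux uxx t < η := by
  by_contra hc
  push Not at hc
  have hd : ∀ t > 0, HasDerivAt (fun s => Len ux s + η * s) (-KK ux uxx t + η) t := by
    intro t ht
    have h1 : HasDerivAt (fun s => Len ux s + η * s) _ t :=
      (h.Len_deriv ht).add ((hasDerivAt_id t).const_mul η)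
    refine h1.congr_deriv ?_
    ring
  have ha : AntitoneOn (fun s => Len ux s + η * s) (Ici T) := by
    refine antitoneOn_of_deriv_nonpos (convex_Ici T)
      (fun t ht => (hd t (hT.trans_le ht)).continuousAt.continuousWithinAt) ?_ ?_
    · intro t ht
      rw [interior_Ici] at ht
      exact (hd t (hT.trans ht)).differentiableAt.differentiableWithinAt
    · intro t ht
      rw [interior_Ici] at ht
      rw [(hd t (hT.trans ht)).deriv]
      linarith [hc t (le_of_lt ht)]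
  have hL := Len_nonneg ux T
  have h1 := ha (a := T) (b := T + (Len ux T / η + 1)) (by simp)
    (by simp only [mem_Ici]; have : 0 ≤ Len ux T / η := by positivity
        linarith) (by have : 0 ≤ Len ux T / η := by positivity
                      linarith)
  simp only at h1
  have h2 := Len_nonneg ux (T + (Len ux T / η + 1))
  have h3 : η * (T + (Len ux T / η + 1)) = η * T + Len ux T + η := by
    field_simp
    ring
  rw [h3] at h1
  linarith

end AFlow

lemma norm_tangent_deriv {v w : ℂ} (hv : v ≠ 0) :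
    ‖(‖v‖⁻¹ : ℝ) • w - (inner ℝ v w / ‖v‖ ^ 3) • v‖ = |kap v w| * ‖v‖ := by
  have hn : ‖v‖ ≠ 0 := norm_ne_zero_iff.2 hv
  rw [← abs_of_nonneg (norm_nonneg v), ← abs_mul, abs_of_nonneg (norm_nonneg v),
    ← sq_eq_sq₀ (norm_nonneg _) (abs_nonneg _), sq_abs, norm_sq_eq, kap_eq w hv]
  have h2 := norm_sq_eq v
  simp only [inner_eq, Complex.real_smul, Complex.sub_re, Complex.sub_im, Complex.mul_re,
    Complex.mul_im, Complex.ofReal_re, Complex.ofReal_im]
  set n := ‖v‖ with hn'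
  field_simp
  ring_nf
  ring_nf at h2
  have h4 : n ^ 4 = (v.re ^ 2 + v.im ^ 2) ^ 2 := by rw [← h2]; ring
  simp only [h2, h4]
  ring

lemma osc_tangent {f f' : ℝ → ℂ} (hf : ∀ x ∈ Icc (0:ℝ) 1, HasDerivWithinAt f (f' x) (Icc 0 1) x)
    (cf' : ContinuousOn f' (Icc 0 1)) (h0 : ∀ x ∈ Icc (0:ℝ) 1, f x ≠ 0) {η : ℝ} (hη : 0 < η)
    {x : ℝ} (hx : x ∈ Icc (0:ℝ) 1) :
    ‖un (f x) - un (f 0)‖ ≤ η * (∫ x in (0:ℝ)..1, ‖f x‖) +
      η⁻¹ * ∫ x in (0:ℝ)..1, kap (f x) (f' x) ^ 2 * ‖f x‖ := by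
  set Z : ℝ → ℂ := fun x => (‖f x‖⁻¹ : ℝ) • f' x - (inner ℝ (f x) (f' x) / ‖f x‖ ^ 3) • f x with hZ
  have cf : ContinuousOn f (Icc 0 1) := fun x hx => (hf x hx).continuousWithinAt
  have hn : ∀ x ∈ Icc (0:ℝ) 1, ‖f x‖ ≠ 0 := fun x hx => norm_ne_zero_iff.2 (h0 x hx)
  have cZ : ContinuousOn Z (Icc 0 1) :=
    ((cf.norm.inv₀ hn).smul cf').sub (ContinuousOn.smul (ContinuousOn.div
      (cf.inner (𝕜 := ℝ) cf') (cf.norm.pow 3) (fun p hp => pow_ne_zero 3 (hn p hp))) cf)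
  have hd : ∀ x ∈ Icc (0:ℝ) 1, HasDerivWithinAt (fun x => un (f x)) (Z x) (Icc 0 1) x :=
    fun x hx => tangent_deriv (hf x hx) (h0 x hx)
  have h1 : ∫ y in (0:ℝ)..x, Z y = un (f x) - un (f 0) := by
    apply intervalIntegral.integral_eq_sub_of_hasDerivAt_of_le hx.1
    · exact fun y hy => ((hd y ⟨hy.1, hy.2.trans hx.2⟩).continuousWithinAt).mono
        (Icc_subset_Icc_right hx.2)
    · intro y hy
      exact (hd y ⟨hy.1.le, hy.2.le.trans hx.2⟩).hasDerivAt (Icc_mem_nhds hy.1 (hy.2.trans_le hx.2))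
    · apply ContinuousOn.intervalIntegrable
      rw [uIcc_of_le hx.1]
      exact cZ.mono (Icc_subset_Icc_right hx.2)
  rw [← h1]
  have i1 : IntervalIntegrable (fun x => ‖Z x‖) volume 0 1 := intervalIntegrable_of_cont cZ.norm
  have hk : ∀ x ∈ Icc (0:ℝ) 1, ‖Z x‖ = |kap (f x) (f' x)| * ‖f x‖ := fun x hx =>
    norm_tangent_deriv (h0 x hx)
  have ck : ContinuousOn (fun x => kap (f x) (f' x)) (Icc 0 1) := by
    unfold kap
    exact (cf'.inner (𝕜 := ℝ) (continuousOn_const.mul ((cf.norm.inv₀ hn).smul cf))).div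
      (cf.norm.pow 2) (fun p hp => pow_ne_zero 2 (hn p hp))
  have i2 : IntervalIntegrable (fun x => η * ‖f x‖) volume 0 1 :=
    (intervalIntegrable_of_cont cf.norm).const_mul _
  have i3 : IntervalIntegrable (fun x => η⁻¹ * (kap (f x) (f' x) ^ 2 * ‖f x‖)) volume 0 1 :=
    (intervalIntegrable_of_cont ((ck.pow 2).mul cf.norm)).const_mul _
  calc ‖∫ y in (0:ℝ)..x, Z y‖ ≤ ∫ y in (0:ℝ)..x, ‖Z y‖ :=
        intervalIntegral.norm_integral_le_integral_norm hx.1
    _ ≤ ∫ y in (0:ℝ)..1, ‖Z y‖ := by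
        apply intervalIntegral.integral_mono_interval le_rfl hx.1 hx.2 _ i1
        exact Eventually.of_forall (fun y => norm_nonneg _)
    _ ≤ ∫ x in (0:ℝ)..1, (η * ‖f x‖ + η⁻¹ * (kap (f x) (f' x) ^ 2 * ‖f x‖)) := by
        refine intervalIntegral.integral_mono_on zero_le_one i1 (i2.add i3) (fun x hx => ?_)
        rw [hk x hx, ← mul_assoc, ← add_mul]
        apply mul_le_mul_of_nonneg_right _ (norm_nonneg _)
        have h5 : 0 ≤ η⁻¹ * (η - |kap (f x) (f' x)|) ^ 2 := by positivity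
        have h6 : η⁻¹ * (η - |kap (f x) (f' x)|) ^ 2 =
            η - 2 * |kap (f x) (f' x)| + η⁻¹ * (kap (f x) (f' x)) ^ 2 := by
          rw [← sq_abs (kap (f x) (f' x))]
          field_simp
          ring
        have h7 := abs_nonneg (kap (f x) (f' x))
        linarith
    _ = η * (∫ x in (0:ℝ)..1, ‖f x‖) + η⁻¹ * ∫ x in (0:ℝ)..1, kap (f x) (f' x) ^ 2 * ‖f x‖ := by
        rw [intervalIntegral.integral_add i2 i3, intervalIntegral.integral_const_mul,
          intervalIntegral.integral_const_mul]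

/-- Three unit vectors with sum zero: a rotation which moves each of them by less than a right
angle moves them by the same angle. -/
lemma three_rot {T1 T2 T3 E1 E2 E3 : ℂ} (hT1 : ‖T1‖ = 1) (hT2 : ‖T2‖ = 1) (hT3 : ‖T3‖ = 1)
    (hE1 : ‖E1‖ = 1) (hE2 : ‖E2‖ = 1) (hE3 : ‖E3‖ = 1) (hT : T1 + T2 + T3 = 0)
    (hE : E1 + E2 + E3 = 0) (h1 : 0 < inner ℝ E1 T1) (h2 : 0 < inner ℝ E2 T2)
    (h3 : 0 < inner ℝ E3 T3) :
    T1 * (starRingEnd ℂ) E1 = T2 * (starRingEnd ℂ) E2 ∧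
    T1 * (starRingEnd ℂ) E1 = T3 * (starRingEnd ℂ) E3 := by
  have cj : ∀ z : ℂ, ‖z‖ = 1 → z * (starRingEnd ℂ) z = 1 := fun z hz => by
    rw [Complex.mul_conj, Complex.normSq_eq_norm_sq, hz]; simp
  have a1 := cj T1 hT1
  have a2 := cj T2 hT2
  have a3 := cj T3 hT3
  have b1 := cj E1 hE1
  have b2 := cj E2 hE2
  have b3 := cj E3 hE3
  have hT3' : T3 = -(T1 + T2) := by linear_combination hT
  have hE3' : E3 = -(E1 + E2) := by linear_combination hE
  subst hT3'
  subst hE3'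
  simp only [map_neg, map_add] at *
  set c1 := (starRingEnd ℂ) T1
  set c2 := (starRingEnd ℂ) T2
  set d1 := (starRingEnd ℂ) E1
  set d2 := (starRingEnd ℂ) E2
  have hT12 : T1 * c2 + T2 * c1 = -1 := by linear_combination a3 - a1 - a2
  have hE12 : E1 * d2 + E2 * d1 = -1 := by linear_combination b3 - b1 - b2
  have hw : (T2 * c1) ^ 2 + (T2 * c1) + 1 = 0 := by
    have h4 : T2 * c1 * (T1 * c2) = 1 := by
      rw [show T2 * c1 * (T1 * c2) = (T1 * c1) * (T2 * c2) by ring, a1, a2, one_mul]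
    linear_combination (T2 * c1) * hT12 - h4
  have hv : (E2 * d1) ^ 2 + (E2 * d1) + 1 = 0 := by
    have h4 : E2 * d1 * (E1 * d2) = 1 := by
      rw [show E2 * d1 * (E1 * d2) = (E1 * d1) * (E2 * d2) by ring, b1, b2, one_mul]
    linear_combination (E2 * d1) * hE12 - h4
  have hprod : (T2 * c1 - E2 * d1) * (T2 * c1 + E2 * d1 + 1) = 0 := by
    linear_combination hw - hv
  have hr2 : T2 * d2 = (T2 * c1) * (E1 * d2) * (T1 * d1) := by
    calc T2 * d2 = T2 * d2 * (T1 * c1) * (E1 * d1) := by rw [a1, b1]; ring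
      _ = _ := by ring
  have hx1 : T1 * d2 = (E1 * d2) * (T1 * d1) := by
    calc T1 * d2 = T1 * d2 * (E1 * d1) := by rw [b1]; ring
      _ = _ := by ring
  have hx2 : T2 * d1 = (T2 * c1) * (T1 * d1) := by
    calc T2 * d1 = T2 * d1 * (T1 * c1) := by rw [a1]; ring
      _ = _ := by ring
  rcases mul_eq_zero.1 hprod with h4 | h4
  · have h5 : T2 * d2 = T1 * d1 := by
      rw [hr2]
      linear_combination (T2 * c1 * T1 * d1) * hE12 - (T1 * d1) * hw + (T2 * c1 * T1 * d1) * h4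
    refine ⟨h5.symm, ?_⟩
    linear_combination -h5 - hx1 - hx2 - (T1 * d1) * hE12 - (T1 * d1) * h4
  · exfalso
    have h6 : T1 * d1 + T2 * d2 + (T1 + T2) * (d1 + d2) = 0 := by
      linear_combination hx1 + hx2 + 2 * hr2 + (T1 * d1) * (1 + 2 * T2 * c1) * hE12 +
        2 * (T1 * d1) * hw - (T1 * d1) * (1 + 2 * T2 * c1) * h4
    have h7 := congrArg Complex.re h6
    rw [Complex.inner] at h1 h2 h3
    simp only [map_neg, map_add] at h3
    have h8 : (-(T1 + T2) * (-(starRingEnd ℂ) E1 + -(starRingEnd ℂ) E2)).re =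
      ((T1 + T2) * (d1 + d2)).re := by congr 1; ring
    simp only [Complex.add_re, Complex.zero_re] at h7
    have h9 : 0 < ((T1 + T2) * (d1 + d2)).re := by
      have : -(T1 + T2) * (starRingEnd ℂ) (-(E1 + E2)) = (T1 + T2) * (d1 + d2) := by
        simp only [map_neg, map_add]; ring
      rw [← this]
      simpa using h3
    linarith

end Pool.Agent.R732.Net
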