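import Pool.Agent.R732.Net.Core

/-! Curvature flow of networks: convergence of the tangent directions. -/

open Set Filter Topology MeasureTheory

namespace Pool.Agent.R732.Net

variable {ι W : Type*} [Fintype ι] [Fintype W] [DecidableEq W]
  {u ux uxx ut : ι → ℝ → ℝ → ℂ} {vtx : ι × Bool → W} {p : W → ℝ → ℂ} {Bd : Set W}

/-- A family of unit directions, one for each curve, balanced at the 3-points. -/
structure Dirs (vtx : ι × Bool → W) (Bd : Set W) (e : ι → ℂ) : Prop where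
  norm : ∀ i, ‖e i‖ = 1
  bal : ∀ w ∉ Bd, ∑ d ∈ Finset.univ.filter (fun d => vtx d = w), sgn d.2 • e d.1 = 0

/-- At time `t` all curves have slope at most `m` relative to the directions `e`. -/
def Cone (ux : ι → ℝ → ℝ → ℂ) (e : ι → ℂ) (m t : ℝ) : Prop :=
  ∀ i, ∀ x ∈ Icc (0:ℝ) 1, |inner ℝ (Complex.I * e i) (ux i t x)| ≤ m * inner ℝ (e i) (ux i t x)

lemma inner_I_self (e : ℂ) : inner ℝ (Complex.I * e) e = 0 := by
  simp only [inner_eq, Complex.mul_re, Complex.mul_im, Complex.I_re, Complex.I_im]; ring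

lemma norm_I_mul (e : ℂ) : ‖Complex.I * e‖ = ‖e‖ := by simp

lemma pyth {e : ℂ} (he : ‖e‖ = 1) (v : ℂ) :
    inner ℝ e v ^ 2 + inner ℝ (Complex.I * e) v ^ 2 = ‖v‖ ^ 2 := by
  have h1 := norm_sq_eq e
  rw [he] at h1
  rw [norm_sq_eq v]
  simp only [inner_eq, Complex.mul_re, Complex.mul_im, Complex.I_re, Complex.I_im]
  linear_combination (-(v.re * v.re + v.im * v.im)) * h1

lemma decomp {e : ℂ} (he : ‖e‖ = 1) (v : ℂ) :
    v = (inner ℝ e v) • e + (inner ℝ (Complex.I * e) v) • (Complex.I * e) := by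
  have h1 := norm_sq_eq e
  rw [he] at h1
  apply Complex.ext
  · simp only [inner_eq, Complex.mul_re, Complex.mul_im, Complex.I_re, Complex.I_im,
      Complex.add_re, Complex.real_smul, Complex.ofReal_re, Complex.ofReal_im]
    linear_combination v.re * h1
  · simp only [inner_eq, Complex.mul_re, Complex.mul_im, Complex.I_re, Complex.I_im,
      Complex.add_im, Complex.real_smul, Complex.ofReal_re, Complex.ofReal_im]
    linear_combination v.im * h1

lemma cone_of_close {m δ : ℝ} (hδ : δ * (1 + m) ≤ m) (hm : 0 ≤ m) {e v : ℂ} (he : ‖e‖ = 1)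
    (hv : v ≠ 0) (h : ‖un v - e‖ ≤ δ) :
    |inner ℝ (Complex.I * e) v| ≤ m * inner ℝ e v := by
  have h1 : inner ℝ (Complex.I * e) (un v) = inner ℝ (Complex.I * e) (un v - e) := by
    rw [inner_sub_right, inner_I_self, sub_zero]
  have h2 : inner ℝ e (un v) = 1 + inner ℝ e (un v - e) := by
    rw [inner_sub_right, real_inner_self_eq_norm_sq, he]; ring
  have h3 : |inner ℝ (Complex.I * e) (un v - e)| ≤ δ := by
    refine (abs_real_inner_le_norm _ _).trans ?_
    rw [norm_I_mul, he, one_mul]; exact h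
  have h4 : |inner ℝ e (un v - e)| ≤ δ := by
    refine (abs_real_inner_le_norm _ _).trans ?_
    rw [he, one_mul]; exact h
  have h5 : |inner ℝ (Complex.I * e) (un v)| ≤ m * inner ℝ e (un v) := by
    rw [h1, h2]
    have := (abs_le.1 h4).1
    nlinarith
  have h6 := mul_le_mul_of_nonneg_left h5 (norm_nonneg v)
  have e1 : inner ℝ (Complex.I * e) v = ‖v‖ * inner ℝ (Complex.I * e) (un v) := by
    rw [← real_inner_smul_right, norm_smul_un hv]
  have e2 : inner ℝ e v = ‖v‖ * inner ℝ e (un v) := by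
    rw [← real_inner_smul_right, norm_smul_un hv]
  rw [e1, e2, abs_mul, abs_norm]
  linarith

lemma close_of_cone {m : ℝ} {e v : ℂ} (he : ‖e‖ = 1) (hv : v ≠ 0) (hm : 0 < m)
    (h : |inner ℝ (Complex.I * e) v| ≤ m * inner ℝ e v) : ‖un v - e‖ ≤ 2 * m := by
  have hn : 0 < ‖v‖ := norm_pos_iff.2 hv
  have h0 : |inner ℝ (Complex.I * e) (un v)| ≤ m * inner ℝ e (un v) := by
    rw [un, real_inner_smul_right, real_inner_smul_right, abs_mul, abs_of_pos (inv_pos.2 hn)]
    have := mul_le_mul_of_nonneg_left h (inv_pos.2 hn).le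
    linarith
  have h1 := pyth he (un v)
  rw [norm_un hv] at h1
  have h3 := pyth he (un v - e)
  rw [inner_sub_right, inner_sub_right, inner_I_self, real_inner_self_eq_norm_sq, he] at h3
  set α := inner ℝ e (un v) with hα
  set β := inner ℝ (Complex.I * e) (un v) with hβ
  have hα1 : α ≤ 1 := by nlinarith [sq_nonneg β]
  have hα0 : 0 ≤ α := by
    by_contra hc
    push Not at hc
    have := abs_nonneg β
    nlinarith
  have h5 : β ^ 2 ≤ m ^ 2 * α ^ 2 := by
    rw [← sq_abs]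
    have := pow_le_pow_left₀ (abs_nonneg β) h0 2
    nlinarith
  have h6 : ‖un v - e‖ ^ 2 ≤ (2 * m) ^ 2 := by
    rw [← h3]
    have : m ^ 2 * α ^ 2 ≤ m ^ 2 := by
      have : α ^ 2 ≤ 1 := by nlinarith
      nlinarith [sq_nonneg m]
    nlinarith
  exact le_of_sq_le_sq h6 (by positivity)

lemma pos_of_cone {m : ℝ} {e v : ℂ} (he : ‖e‖ = 1) (hv : v ≠ 0) (hm : 0 < m)
    (h : |inner ℝ (Complex.I * e) v| ≤ m * inner ℝ e v) : 0 < inner ℝ e v := by
  have h1 := pyth he v
  have hn : 0 < ‖v‖ ^ 2 := by positivity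
  rw [← h1] at hn
  have h2 := (abs_nonneg _).trans h
  by_contra hc
  push Not at hc
  have h3 : inner ℝ e v = 0 := by nlinarith
  rw [h3, mul_zero] at h
  have h4 : inner ℝ (Complex.I * e) v = 0 := abs_eq_zero.1 (le_antisymm h (abs_nonneg _))
  rw [h3, h4] at hn
  norm_num at hn

/-- Along a sequence of times, the tangents converge to a balanced family of directions. -/
lemma AFlow.exists_dirs (h : AFlow u ux uxx ut vtx p Bd) :
    ∃ e : ι → ℂ, Dirs vtx Bd e ∧ ∀ ε > 0, ∀ T > 0, ∃ t ≥ T, ∀ i, ∀ x ∈ Icc (0:ℝ) 1,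
      ‖un (ux i t x) - e i‖ < ε := by
  have hη : ∀ n : ℕ, (0:ℝ) < 1 / (n + 1) := fun n => by positivity
  choose t ht hK using fun n : ℕ =>
    h.exists_small_KK (η := (1 / ((n:ℝ) + 1)) ^ 2) (T := (n:ℝ) + 1) (by positivity) (by positivity)
  have htpos : ∀ n, 0 < t n := fun n => lt_of_lt_of_le (by positivity) (ht n)
  have hosc : ∀ n i, ∀ x ∈ Icc (0:ℝ) 1, ‖un (ux i (t n) x) - un (ux i (t n) 0)‖ ≤
      (1 / ((n:ℝ) + 1)) * (AFlow.Len ux 1 + 1) := by
    intro n i x hx
    have h1 := osc_tangent (f := ux i (t n)) (f' := uxx i (t n))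
      ((h.data i).hxx (t n) (htpos n)) (slice_cont (J := Ioi 0) (htpos n) (h.data i).cxx)
      (h.reg i (t n) (htpos n)) (hη n) hx
    have h2 : ∫ x in (0:ℝ)..1, ‖ux i (t n) x‖ ≤ AFlow.Len ux 1 := by
      have h3 : ∫ x in (0:ℝ)..1, ‖ux i (t n) x‖ ≤ AFlow.Len ux (t n) := by
        refine Finset.single_le_sum (f := fun i => ∫ x in (0:ℝ)..1, ‖ux i (t n) x‖)
          (fun j _ => ?_) (Finset.mem_univ i)
        exact intervalIntegral.integral_nonneg zero_le_one (fun _ _ => norm_nonneg _)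
      refine h3.trans (h.Len_anti (by simp : (1:ℝ) ∈ Ioi 0) (htpos n) ?_)
      have := ht n
      have h4 : (0:ℝ) ≤ n := Nat.cast_nonneg n
      linarith
    have h3 : ∫ x in (0:ℝ)..1, kap (ux i (t n) x) (uxx i (t n) x) ^ 2 * ‖ux i (t n) x‖ ≤
        (1 / ((n:ℝ) + 1)) ^ 2 := by
      refine le_trans ?_ (hK n).le
      exact Finset.single_le_sum
        (f := fun i => ∫ x in (0:ℝ)..1, kap (ux i (t n) x) (uxx i (t n) x) ^ 2 * ‖ux i (t n) x‖)
        (fun j _ => AFlow.KKi_nonneg ux uxx j (t n)) (Finset.mem_univ i)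
    refine h1.trans ?_
    have h4 := mul_le_mul_of_nonneg_left h2 (hη n).le
    have h5 := mul_le_mul_of_nonneg_left h3 (inv_pos.2 (hη n)).le
    have h6 : (1 / ((n:ℝ) + 1))⁻¹ * (1 / ((n:ℝ) + 1)) ^ 2 = 1 / ((n:ℝ) + 1) := by
      field_simp
    rw [h6] at h5
    linarith
  have hKc : IsCompact (Set.pi univ (fun _ : ι => Metric.sphere (0:ℂ) 1)) :=
    isCompact_univ_pi (fun _ => isCompact_sphere _ _)
  obtain ⟨a, ha, φ, hφ, hlim⟩ := hKc.tendsto_subseq (x := fun n i => un (ux i (t n) 0))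
    (fun n i _ => by
      simp only [mem_sphere_iff_norm, sub_zero]
      exact norm_un (h.reg i (t n) (htpos n) 0 ⟨le_rfl, zero_le_one⟩))
  have hsmall : Tendsto (fun n : ℕ => (1 / (((φ n : ℕ) : ℝ) + 1)) * (AFlow.Len ux 1 + 1)) atTop
      (𝓝 0) := by
    have h1 := (tendsto_one_div_add_atTop_nhds_zero_nat (𝕜 := ℝ)).comp hφ.tendsto_atTop
    have h2 := h1.mul_const (AFlow.Len ux 1 + 1)
    rw [zero_mul] at h2
    exact h2
  have hunif : ∀ i, ∀ ε > 0, ∀ᶠ n in atTop, ∀ x ∈ Icc (0:ℝ) 1,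
      ‖un (ux i (t (φ n)) x) - a i‖ < ε := by
    intro i ε hε
    have h1 : Tendsto (fun n => un (ux i (t (φ n)) 0)) atTop (𝓝 (a i)) :=
      (tendsto_pi_nhds.1 hlim) i
    have h2 := (Metric.tendsto_atTop.1 h1 (ε / 2) (half_pos hε))
    have h3 := hsmall.eventually (gt_mem_nhds (half_pos hε))
    obtain ⟨N, hN⟩ := h2
    filter_upwards [h3, eventually_ge_atTop N] with n h4 h5 x hx
    have h6 := hN n h5
    rw [dist_eq_norm] at h6
    have h7 := hosc (φ n) i x hx
    calc ‖un (ux i (t (φ n)) x) - a i‖ = ‖(un (ux i (t (φ n)) x) - un (ux i (t (φ n)) 0)) +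
          (un (ux i (t (φ n)) 0) - a i)‖ := by congr 1; ring
      _ ≤ _ := norm_add_le _ _
      _ < ε := by linarith
  refine ⟨a, ⟨fun i => ?_, fun w hw => ?_⟩, ?_⟩
  · have := ha i (mem_univ i)
    simpa using this
  · have h1 : Tendsto (fun n => ∑ d ∈ Finset.univ.filter (fun d => vtx d = w),
        sgn d.2 • un (ux d.1 (t (φ n)) (par d.2))) atTop
        (𝓝 (∑ d ∈ Finset.univ.filter (fun d => vtx d = w), sgn d.2 • a d.1)) := by
      refine tendsto_finsetSum _ (fun d _ => Tendsto.const_smul ?_ _)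
      rw [Metric.tendsto_atTop']
      intro ε hε
      obtain ⟨N, hN⟩ := (hunif d.1 ε hε).exists_forall_of_atTop
      refine ⟨N, fun n hn => ?_⟩
      rw [dist_eq_norm]
      exact hN n hn.le _ (par_mem _)
    have h2 : (fun n => ∑ d ∈ Finset.univ.filter (fun d => vtx d = w),
        sgn d.2 • un (ux d.1 (t (φ n)) (par d.2))) = fun _ => 0 := by
      funext n
      exact h.bal w hw _ (htpos _)
    rw [h2] at h1
    exact (tendsto_nhds_unique h1 tendsto_const_nhds)
  · intro ε hε T hT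
    have h1 : ∀ᶠ n in atTop, ∀ i, ∀ x ∈ Icc (0:ℝ) 1, ‖un (ux i (t (φ n)) x) - a i‖ < ε := by
      rw [eventually_all]
      exact fun i => hunif i ε hε
    obtain ⟨k, hk⟩ := exists_nat_ge T
    obtain ⟨n, hn1, hn2⟩ := (h1.and (eventually_ge_atTop k)).exists
    refine ⟨t (φ n), ?_, hn1⟩
    have h3 := ht (φ n)
    have h4 : k ≤ φ n := hn2.trans (hφ.id_le n)
    have h5 : (k : ℝ) ≤ φ n := by exact_mod_cast h4
    linarith

lemma slp_eq_of_rot {T1 T2 E1 E2 v1 v2 e1 e2 : ℂ} {s1 s2 : ℝ} (hs1 : s1 * s1 = 1)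
    (hs2 : s2 * s2 = 1)
    (h1 : T1 = s1 • un v1) (h2 : T2 = s2 • un v2) (g1 : E1 = s1 • e1) (g2 : E2 = s2 • e2)
    (hv1 : v1 ≠ 0) (hv2 : v2 ≠ 0)
    (h : T1 * (starRingEnd ℂ) E1 = T2 * (starRingEnd ℂ) E2) : slp e1 v1 = slp e2 v2 := by
  have key : ∀ (v e : ℂ) (s : ℝ), s * s = 1 → v ≠ 0 →
      slp e v = ((s • un v) * (starRingEnd ℂ) (s • e)).im / ((s • un v) * (starRingEnd ℂ) (s • e)).re := by
    intro v e s hs hv
    have hn : ‖v‖ ≠ 0 := norm_ne_zero_iff.2 hv
    have e1 : (s • un v) * (starRingEnd ℂ) (s • e) = (‖v‖⁻¹ : ℝ) • (v * (starRingEnd ℂ) e) := by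
      rw [un]
      simp only [Complex.real_smul, map_mul, Complex.conj_ofReal]
      have : ((s:ℂ) * (s:ℂ)) = 1 := by exact_mod_cast hs
      linear_combination ((‖v‖⁻¹ : ℝ) : ℂ) * v * (starRingEnd ℂ) e * this
    rw [e1, slp, Complex.smul_im, Complex.smul_re, smul_eq_mul, smul_eq_mul,
      mul_div_mul_left _ _ (inv_ne_zero hn)]
    simp only [inner_eq, Complex.mul_re, Complex.mul_im, Complex.I_re, Complex.I_im,
      Complex.conj_re, Complex.conj_im]
    congr 1 <;> ring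
  rw [key v1 e1 s1 hs1 hv1, key v2 e2 s2 hs2 hv2, ← h1, ← h2, ← g1, ← g2, h]

/-- At a 3-point, the slopes of the three curves are equal. -/
lemma AFlow.slopes_eq (h : AFlow u ux uxx ut vtx p Bd) {e : ι → ℂ} (he : Dirs vtx Bd e) {t : ℝ}
    (ht : 0 < t) (hpos : ∀ i, ∀ x ∈ Icc (0:ℝ) 1, 0 < inner ℝ (e i) (ux i t x)) {w : W}
    (hw : w ∉ Bd) : ∃ y, ∀ d, vtx d = w → slp (e d.1) (ux d.1 t (par d.2)) = y := by
  classical
  obtain ⟨d1, d2, d3, h12, h13, h23, hS⟩ := Finset.card_eq_three.1 (h.deg w hw)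
  have hb := h.bal w hw t ht
  have hb' := he.bal w hw
  have hmem : ∀ d, vtx d = w → d = d1 ∨ d = d2 ∨ d = d3 := by
    intro d hd
    have : d ∈ Finset.univ.filter (fun d => vtx d = w) := by simp [hd]
    rw [hS] at this
    simpa using this
  rw [hS] at hb hb'
  rw [Finset.sum_insert (by simp [h12, h13]), Finset.sum_insert (by simp [h23]),
    Finset.sum_singleton, ← add_assoc] at hb hb'
  have hne : ∀ d : ι × Bool, ux d.1 t (par d.2) ≠ 0 := fun d => h.reg d.1 t ht _ (par_mem _)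
  have nT : ∀ d : ι × Bool, ‖sgn d.2 • un (ux d.1 t (par d.2))‖ = 1 := by
    intro d
    rw [norm_smul, norm_un (hne d), mul_one]
    rcases d with ⟨i, b⟩
    cases b <;> simp [sgn]
  have nE : ∀ d : ι × Bool, ‖sgn d.2 • e d.1‖ = 1 := by
    intro d
    rw [norm_smul, he.norm, mul_one]
    rcases d with ⟨i, b⟩
    cases b <;> simp [sgn]
  have pI : ∀ d : ι × Bool, 0 < inner ℝ (sgn d.2 • e d.1) (sgn d.2 • un (ux d.1 t (par d.2))) := by
    intro d
    rw [real_inner_smul_left, real_inner_smul_right, ← mul_assoc, sgn_sq, one_mul, un,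
      real_inner_smul_right]
    exact mul_pos (inv_pos.2 (norm_pos_iff.2 (hne d))) (hpos d.1 _ (par_mem _))
  obtain ⟨r1, r2⟩ := three_rot (nT d1) (nT d2) (nT d3) (nE d1) (nE d2) (nE d3) hb hb'
    (pI d1) (pI d2) (pI d3)
  refine ⟨slp (e d1.1) (ux d1.1 t (par d1.2)), fun d hd => ?_⟩
  rcases hmem d hd with rfl | rfl | rfl
  · rfl
  · exact (slp_eq_of_rot (sgn_sq _) (sgn_sq _) rfl rfl rfl rfl (hne _) (hne _) r1).symm
  · exact (slp_eq_of_rot (sgn_sq _) (sgn_sq _) rfl rfl rfl rfl (hne _) (hne _) r2).symm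

/-- The penalty functional is monotone. -/
lemma AFlow.penalty_deriv (h : AFlow u ux uxx ut vtx p Bd) {e : ι → ℂ} (he : Dirs vtx Bd e)
    {a b m : ℝ} (ha : 0 ≤ a)
    (hpos : ∀ s ∈ Ioo a b, ∀ i, ∀ x ∈ Icc (0:ℝ) 1, 0 < inner ℝ (e i) (ux i s x))
    {t : ℝ} (ht : t ∈ Ioo a b) :
    ∃ D ≥ 0, HasDerivAt (fun s => ∑ i, ∫ x in (0:ℝ)..1, gg m (e i) (ux i s x)) (-D) t := by
  have htp : 0 < t := ha.trans_lt ht.1
  choose D hD hd using fun i => slope_deriv (h.data i) (h.mot i) (m := m) (he.norm i) ha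
    (fun s hs x hx => hpos s hs i x hx) ht
  refine ⟨∑ i, D i, Finset.sum_nonneg (fun i _ => hD i), ?_⟩
  have h1 := HasDerivAt.fun_sum (u := Finset.univ) (fun i _ => hd i)
  refine h1.congr_deriv ?_
  rw [Finset.sum_sub_distrib]
  have h2 := h.boundary_sum htp (fun d => XX m (e d.1) (slp (e d.1) (ux d.1 t (par d.2))))
    (fun w hw => ?_)
  · simp only [par, cond_true, cond_false] at h2
    rw [h2, zero_sub]
  · obtain ⟨y, hy⟩ := h.slopes_eq he htp (fun i x hx => hpos t ht i x hx) hw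
    have h3 : ∀ d ∈ Finset.univ.filter (fun d => vtx d = w),
        sgn d.2 • XX m (e d.1) (slp (e d.1) (ux d.1 t (par d.2))) =
        (((ph m y - y * ph' m y : ℝ) : ℂ) + ((ph' m y : ℝ) : ℂ) * Complex.I) *
          (sgn d.2 • e d.1) := by
      intro d hd
      rw [hy d (Finset.mem_filter.1 hd).2, XX]
      simp only [Complex.real_smul]
      ring
    rw [Finset.sum_congr rfl h3, ← Finset.mul_sum, he.bal w hw, mul_zero]

/-- Positivity of the components persists for a short time. -/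
lemma AFlow.pos_near (h : AFlow u ux uxx ut vtx p Bd) {e : ι → ℂ} {t : ℝ} (ht : 0 < t)
    (hpos : ∀ i, ∀ x ∈ Icc (0:ℝ) 1, 0 < inner ℝ (e i) (ux i t x)) :
    ∃ δ > 0, δ ≤ t ∧ ∀ s ∈ Ioo (t - δ) (t + δ), ∀ i, ∀ x ∈ Icc (0:ℝ) 1,
      0 < inner ℝ (e i) (ux i s x) := by
  have h1 : ∀ i, ∀ᶠ s in 𝓝 t, ∀ x ∈ Icc (0:ℝ) 1, 0 < s → 0 < inner ℝ (e i) (ux i s x) := by
    intro i
    have h2 : ∀ᶠ s in 𝓝 t, ∀ x ∈ Icc (0:ℝ) 1,
        ((s, x) ∈ Ioi (0:ℝ) ×ˢ Icc (0:ℝ) 1 → 0 < inner ℝ (e i) (ux i s x)) := by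
      refine isCompact_Icc.eventually_forall_of_forall_eventually (fun x hx => ?_)
      have h3 : ContinuousWithinAt (fun p : ℝ × ℝ => (inner ℝ (e i) (ux i p.1 p.2) : ℝ))
          (Ioi 0 ×ˢ Icc 0 1) (t, x) := (continuousOn_const.inner (𝕜 := ℝ) (h.data i).cx) _ ⟨ht, hx⟩
      have h4 := h3.eventually (lt_mem_nhds (hpos i x hx))
      exact eventually_nhdsWithin_iff.1 h4
    filter_upwards [h2] with s hs x hx hs0
    exact hs x hx ⟨hs0, hx⟩
  have h2 := (eventually_all.2 h1)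
  obtain ⟨δ, hδ, hb⟩ := Metric.eventually_nhds_iff_ball.1 h2
  refine ⟨min δ t, lt_min hδ ht, min_le_right _ _, fun s hs i x hx => ?_⟩
  have h3 := min_le_left δ t
  have h4 := min_le_right δ t
  refine hb s ?_ i x hx ?_
  · rw [Metric.mem_ball, Real.dist_eq, abs_lt]
    constructor <;> linarith [hs.1, hs.2]
  · linarith [hs.1]

/-- The barrier: once all slopes are at most `m`, they stay so. -/
lemma AFlow.barrier (h : AFlow u ux uxx ut vtx p Bd) {e : ι → ℂ} (he : Dirs vtx Bd e)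
    {m T : ℝ} (hm : 0 < m) (hT : 0 < T) (h0 : Cone ux e m T) : ∀ t ≥ T, Cone ux e m t := by
  intro b hb
  have key : Icc T b ⊆ {t | Cone ux e m t} := by
    apply IsClosed.Icc_subset_of_forall_mem_nhdsWithin (s := {t | Cone ux e m t})
    · have h1 : {t | Cone ux e m t} ∩ Icc T b = Icc T b ∩ ⋂ i, ⋂ x ∈ Icc (0:ℝ) 1, {t ∈ Icc T b |
          |inner ℝ (Complex.I * e i) (ux i t x)| ≤ m * inner ℝ (e i) (ux i t x)} := by
        ext t
        simp only [mem_inter_iff, mem_ofPred_eq, mem_iInter, Cone]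
        constructor
        · rintro ⟨h1, h2⟩
          exact ⟨h2, fun i x hx => ⟨h2, h1 i x hx⟩⟩
        · rintro ⟨h1, h2⟩
          exact ⟨fun i x hx => (h2 i x hx).2, h1⟩
      rw [h1]
      refine isClosed_Icc.inter (isClosed_iInter (fun i => isClosed_biInter (fun x hx => ?_)))
      have hsub : Icc T b ⊆ Ioi 0 := fun s hs => hT.trans_le hs.1
      have cux : ContinuousOn (fun t => ux i t x) (Icc T b) :=
        (slice_cont_t hx (h.data i).cx).mono hsub
      have cI : ∀ c : ℂ, ContinuousOn (fun t => (inner ℝ c (ux i t x) : ℝ)) (Icc T b) :=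
        fun c => continuousOn_const.inner (𝕜 := ℝ) cux
      exact isClosed_Icc.isClosed_le (cI _).abs (continuousOn_const.mul (cI _))
    · exact h0
    · rintro t1 ⟨hc, ht1⟩
      have ht1p : 0 < t1 := hT.trans_le ht1.1
      have hpos : ∀ i, ∀ x ∈ Icc (0:ℝ) 1, 0 < inner ℝ (e i) (ux i t1 x) := fun i x hx =>
        pos_of_cone (he.norm i) (h.reg i t1 ht1p x hx) hm (hc i x hx)
      obtain ⟨δ, hδ, hδt, hp⟩ := h.pos_near ht1p hpos
      have hF := fun s (hs : s ∈ Ioo (t1 - δ) (t1 + δ)) =>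
        h.penalty_deriv he (a := t1 - δ) (b := t1 + δ) (m := m) (by linarith) hp hs
      set F : ℝ → ℝ := fun s => ∑ i, ∫ x in (0:ℝ)..1, gg m (e i) (ux i s x) with hFdef
      have hanti : AntitoneOn F (Ioo (t1 - δ) (t1 + δ)) := by
        refine antitoneOn_of_deriv_nonpos (convex_Ioo _ _) (fun s hs => ?_) (fun s hs => ?_)
          (fun s hs => ?_)
        · obtain ⟨D, _, hd⟩ := hF s hs
          exact hd.continuousAt.continuousWithinAt
        · rw [interior_Ioo] at hs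
          obtain ⟨D, _, hd⟩ := hF s hs
          exact hd.differentiableAt.differentiableWithinAt
        · rw [interior_Ioo] at hs
          obtain ⟨D, hD, hd⟩ := hF s hs
          rw [hd.deriv]; linarith
      have hF0 : F t1 = 0 := by
        refine Finset.sum_eq_zero (fun i _ => ?_)
        have : ∀ x ∈ uIcc (0:ℝ) 1, gg m (e i) (ux i t1 x) = 0 := by
          intro x hx
          rw [uIcc_of_le zero_le_one] at hx
          rw [gg, ph_eq_zero.2, mul_zero]
          rw [slp, abs_div, abs_of_pos (hpos i x hx), div_le_iff₀ (hpos i x hx)]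
          exact hc i x hx
        rw [intervalIntegral.integral_congr this, intervalIntegral.integral_zero]
      have hmem : Ico t1 (t1 + δ) ∈ 𝓝[>] t1 := by
        apply mem_of_superset (Ioo_mem_nhdsGT (by linarith : t1 < t1 + δ)) Ioo_subset_Ico_self
      refine mem_of_superset hmem (fun s hs => ?_)
      have hs' : s ∈ Ioo (t1 - δ) (t1 + δ) := ⟨by linarith [hs.1], hs.2⟩
      have hFs : F s ≤ 0 := by
        rw [← hF0]
        exact hanti ⟨by linarith, by linarith⟩ hs' hs.1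
      have hs0 : 0 < s := ht1p.trans_le hs.1
      have hnn : ∀ i, ∀ x ∈ Icc (0:ℝ) 1, 0 ≤ gg m (e i) (ux i s x) := fun i x hx =>
        mul_nonneg (hp s hs' i x hx).le (ph_nonneg _ _)
      intro i x hx
      have hi : ∫ x in (0:ℝ)..1, gg m (e i) (ux i s x) ≤ 0 := by
        refine le_trans ?_ hFs
        exact Finset.single_le_sum (f := fun i => ∫ x in (0:ℝ)..1, gg m (e i) (ux i s x))
          (fun j _ => intervalIntegral.integral_nonneg zero_le_one (fun x hx => hnn j x hx))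
          (Finset.mem_univ i)
      have hz : gg m (e i) (ux i s x) = 0 := by
        by_contra hne
        have hlt : 0 < gg m (e i) (ux i s x) := lt_of_le_of_ne (hnn i x hx) (Ne.symm hne)
        have cux : ContinuousOn (ux i s) (Icc 0 1) := slice_cont (J := Ioi 0) hs0 (h.data i).cx
        have cI : ∀ c : ℂ, ContinuousOn (fun x => (inner ℝ c (ux i s x) : ℝ)) (Icc (0:ℝ) 1) :=
          fun c => continuousOn_const.inner (𝕜 := ℝ) cux
        have cg : ContinuousOn (fun x => gg m (e i) (ux i s x)) (Icc 0 1) :=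
          (cI _).mul ((ph_cont m).comp_continuousOn ((cI _).div (cI _)
            (fun x hx => (hp s hs' i x hx).ne')))
        have := intervalIntegral.integral_pos zero_lt_one cg
          (fun y hy => hnn i y (Ioc_subset_Icc_self hy)) ⟨x, hx, hlt⟩
        linarith
      have hpx := hp s hs' i x hx
      rw [gg, mul_eq_zero, or_iff_right hpx.ne', ph_eq_zero, slp, abs_div, abs_of_pos hpx,
        div_le_iff₀ hpx] at hz
      exact hz
  exact key ⟨hb, le_rfl⟩

end Pool.Agent.R732.Net
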