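import Mathlib

/-!
# Networks of plane curves and their motion by curvature with fixed end-points

The plane is `ℂ`. A network consists of curves `σ i : [0,1] → ℂ`, `i ∈ ι`, with `ι` finite. The two
ends of the curve `i` are `(i, false)` (parameter `0`) and `(i, true)` (parameter `1`).
-/

open Set Filter Topology

namespace Pool.Agent.R732.Net

variable {ι : Type*} [Fintype ι]

/-- Derivative with respect to the parameter in `[0,1]` (one-sided at `0` and at `1`). -/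
noncomputable def dX (c : ℝ → ℂ) (x : ℝ) : ℂ := derivWithin c (Icc 0 1) x

/-- Unit tangent `τ = c' / |c'|`. -/
noncomputable def tau (c : ℝ → ℂ) (x : ℝ) : ℂ := (‖dX c x‖⁻¹ : ℝ) • dX c x

/-- Unit normal `ν`: the unit tangent rotated counterclockwise by `π/2`. -/
noncomputable def nu (c : ℝ → ℂ) (x : ℝ) : ℂ := Complex.I * tau c x

/-- Curvature `k = ⟨c'', ν⟩ / |c'|²`. -/
noncomputable def kappa (c : ℝ → ℂ) (x : ℝ) : ℝ :=
  inner ℝ (dX (dX c) x) (nu c x) / ‖dX c x‖ ^ 2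

/-- The point at which the curve end `e` sits. -/
def endpt (σ : ι → ℝ → ℂ) (e : ι × Bool) : ℂ := σ e.1 (cond e.2 1 0)

/-- The exterior unit tangent at the curve end `e`: it points from the end into the curve. -/
noncomputable def extTangent (σ : ι → ℝ → ℂ) (e : ι × Bool) : ℂ :=
  cond e.2 (-tau (σ e.1) 1) (tau (σ e.1) 0)

/-- All curve ends which sit at the same point as the end `e`. -/
noncomputable def endsAt (σ : ι → ℝ → ℂ) (e : ι × Bool) : Finset (ι × Bool) :=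
  open Classical in Finset.univ.filter (fun e' => endpt σ e' = endpt σ e)

/-- The curves `σ i` form a network in the open set `Ω`. -/
structure IsNetwork (Ω : Set ℂ) (σ : ι → ℝ → ℂ) : Prop where
  contDiff : ∀ i, ContDiffOn ℝ 1 (σ i) (Icc 0 1)
  regular : ∀ i, ∀ x ∈ Icc (0:ℝ) 1, dX (σ i) x ≠ 0
  embedded : ∀ i, InjOn (σ i) (Icc 0 1)
  mem_closure : ∀ i, ∀ x ∈ Icc (0:ℝ) 1, σ i x ∈ closure Ω
  connected : IsConnected (⋃ i, σ i '' Icc 0 1)
  /-- distinct curves meet only at their ends -/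
  meet : ∀ i j, i ≠ j → ∀ x ∈ Icc (0:ℝ) 1, ∀ y ∈ Icc (0:ℝ) 1, σ i x = σ j y →
    (x = 0 ∨ x = 1) ∧ (y = 0 ∨ y = 1)
  /-- every curve end sits at a 3-point in `Ω`, or is the only one at a point of `∂Ω` -/
  ends : ∀ e : ι × Bool, (endpt σ e ∈ Ω ∧ (endsAt σ e).card = 3) ∨
    (endpt σ e ∈ frontier Ω ∧ (endsAt σ e).card = 1)

/-- At every 3-point the three exterior unit tangents sum to `0` (angles of 120 degrees). -/
def Is120 (Ω : Set ℂ) (σ : ι → ℝ → ℂ) : Prop :=
  ∀ e : ι × Bool, endpt σ e ∈ Ω → ∑ e' ∈ endsAt σ e, extTangent σ e' = 0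

/-- `u t x` is `C²` in `x ∈ [0,1]` and `C¹` in `t`, for `t > 0`. -/
structure IsC21 (u : ℝ → ℝ → ℂ) : Prop where
  diff_x : ∀ t > 0, DifferentiableOn ℝ (u t) (Icc 0 1)
  diff_xx : ∀ t > 0, DifferentiableOn ℝ (dX (u t)) (Icc 0 1)
  diff_t : ∀ t > 0, ∀ x ∈ Icc (0:ℝ) 1, DifferentiableAt ℝ (fun s => u s x) t
  cont_x : ContinuousOn (fun p : ℝ × ℝ => dX (u p.1) p.2) (Ioi 0 ×ˢ Icc 0 1)
  cont_xx : ContinuousOn (fun p : ℝ × ℝ => dX (dX (u p.1)) p.2) (Ioi 0 ×ˢ Icc 0 1)
  cont_t : ContinuousOn (fun p : ℝ × ℝ => deriv (fun s => u s p.2) p.1) (Ioi 0 ×ˢ Icc 0 1)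

/-- `γ i t x`, `t ≥ 0`, is a curvature flow with fixed end-points, existing globally in time, with
initial network `σ`. -/
structure IsCurvatureFlow (Ω : Set ℂ) (σ : ι → ℝ → ℂ) (γ : ι → ℝ → ℝ → ℂ) : Prop where
  initial : ∀ i, ∀ x ∈ Icc (0:ℝ) 1, γ i 0 x = σ i x
  cont : ∀ i, ContinuousOn (fun p : ℝ × ℝ => γ i p.1 p.2) (Ici 0 ×ˢ Icc 0 1)
  smooth : ∀ i, IsC21 (γ i)
  network : ∀ t > 0, IsNetwork Ω (fun i => γ i t)
  angles : ∀ t > 0, Is120 Ω (fun i => γ i t)
  /-- the end-points on `∂Ω` stay fixed -/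
  fixed : ∀ e : ι × Bool, endpt σ e ∈ frontier Ω → ∀ t > 0, endpt (fun i => γ i t) e = endpt σ e
  /-- `∂ₜ γ = k ν + λ τ` for some continuous `λ` -/
  motion : ∀ i, ∃ lam : ℝ → ℝ → ℝ, ContinuousOn (fun p : ℝ × ℝ => lam p.1 p.2) (Ioi 0 ×ˢ Icc 0 1) ∧
    ∀ t > 0, ∀ x ∈ Icc (0:ℝ) 1,
      deriv (fun s => γ i s x) t = kappa (γ i t) x • nu (γ i t) x + lam t x • tau (γ i t) x

/-- The segment from `a` to `b`, parametrised on `[0,1]`. -/
noncomputable def seg (a b : ℂ) (x : ℝ) : ℂ := a + x • (b - a)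

/-- `θ` is an increasing `C¹` change of parameter of `[0,1]` with positive derivative. -/
structure IsReparam (θ : ℝ → ℝ) : Prop where
  contDiff : ContDiffOn ℝ 1 θ (Icc 0 1)
  deriv_pos : ∀ x ∈ Icc (0:ℝ) 1, 0 < derivWithin θ (Icc 0 1) x
  bij : BijOn θ (Icc 0 1) (Icc 0 1)
  zero : θ 0 = 0
  one : θ 1 = 1

/-- As `t → ∞`, the network `γ · t` converges to the network of the straight segments from `a i` to
`b i`, of which some may be reduced to a point. -/
structure ConvergesTo (γ : ι → ℝ → ℝ → ℂ) (a b : ι → ℂ) : Prop where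
  hausdorff : Tendsto (fun t => Metric.hausdorffDist (⋃ i, γ i t '' Icc 0 1)
    (⋃ i, seg (a i) (b i) '' Icc 0 1)) atTop (𝓝 0)
  length : ∀ i, Tendsto (fun t => ∫ x in (0:ℝ)..1, ‖dX (γ i t) x‖) atTop (𝓝 ‖b i - a i‖)
  /-- the curves whose length tends to `0` collapse to a point -/
  collapse : ∀ i, a i = b i → ∀ ε > 0, ∀ᶠ t in atTop, ∀ x ∈ Icc (0:ℝ) 1, ‖γ i t x - a i‖ < ε
  /-- the other curves admit parametrisations which converge in `C¹([0,1])` -/
  c1 : ∀ i, a i ≠ b i → ∃ θ : ℝ → ℝ → ℝ, (∀ t > 0, IsReparam (θ t)) ∧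
    ∀ ε > 0, ∀ᶠ t in atTop, ∀ x ∈ Icc (0:ℝ) 1,
      ‖γ i t (θ t x) - seg (a i) (b i) x‖ < ε ∧
      ‖dX (fun y => γ i t (θ t y)) x - dX (seg (a i) (b i)) x‖ < ε

/-- The point at which the end `e` of the limit segment sits. -/
def limEnd (a b : ι → ℂ) (e : ι × Bool) : ℂ := cond e.2 (b e.1) (a e.1)

/-- Exterior unit tangent of the limit segment at its end `e`. -/
noncomputable def limTangent (a b : ι → ℂ) (e : ι × Bool) : ℂ :=
  (‖b e.1 - a e.1‖⁻¹ : ℝ) • cond e.2 (a e.1 - b e.1) (b e.1 - a e.1)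

/-- The segments from `a i` to `b i` form a (possibly degenerate) network with the same
combinatorial structure and the same end-points `P ∈ ∂Ω` as the network `σ`. -/
structure SameStructure (Ω : Set ℂ) (σ : ι → ℝ → ℂ) (a b : ι → ℂ) : Prop where
  incidence : ∀ e e' : ι × Bool, endpt σ e = endpt σ e' → limEnd a b e = limEnd a b e'
  fixed : ∀ e : ι × Bool, endpt σ e ∈ frontier Ω → limEnd a b e = endpt σ e

/-- The network of the segments from `a i` to `b i` is stationary for the length with fixed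
end-points: at every point other than the end-points `P ∈ ∂Ω`, the exterior unit tangents of the
nondegenerate segments which end there sum to `0`; moreover it has the least length among all
networks of segments with the same combinatorial structure and the same end-points. -/
structure IsStationary (Ω : Set ℂ) (σ : ι → ℝ → ℂ) (a b : ι → ℂ) : Prop where
  structure_eq : SameStructure Ω σ a b
  balance : ∀ q : ℂ, (∀ e : ι × Bool, endpt σ e ∈ frontier Ω → endpt σ e ≠ q) →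
    open Classical in
    ∑ e ∈ Finset.univ.filter (fun e : ι × Bool => a e.1 ≠ b e.1 ∧ limEnd a b e = q),
      limTangent a b e = 0
  minimal : ∀ a' b' : ι → ℂ, SameStructure Ω σ a' b' → ∑ i, ‖b i - a i‖ ≤ ∑ i, ‖b' i - a' i‖

end Pool.Agent.R732.Net
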