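import Pool.Agent.R732.Net.Reparam

/-! From the definitions of the problem to the abstract setting, and back. -/

open Set Filter Topology MeasureTheory

namespace Pool.Agent.R732.Net

variable {ι : Type*} [Fintype ι]

lemma endpt_par (σ : ι → ℝ → ℂ) (e : ι × Bool) : endpt σ e = σ e.1 (par e.2) := rfl

lemma extTangent_eq (σ : ι → ℝ → ℂ) (e : ι × Bool) :
    extTangent σ e = sgn e.2 • un (dX (σ e.1) (par e.2)) := by
  rcases e with ⟨i, b⟩
  cases b <;> simp [extTangent, sgn, un, tau, par]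

lemma mem_endsAt {σ : ι → ℝ → ℂ} {e e' : ι × Bool} :
    e' ∈ endsAt σ e ↔ endpt σ e' = endpt σ e := by
  simp [endsAt]

variable {Ω : Set ℂ} {σ : ι → ℝ → ℂ} {γ : ι → ℝ → ℝ → ℂ}

/-- The network at time `t`. -/
def slice (γ : ι → ℝ → ℝ → ℂ) (t : ℝ) : ι → ℝ → ℂ := fun i => γ i t

lemma IsCurvatureFlow.ends_of (hσ : IsNetwork Ω σ) (h : IsCurvatureFlow Ω σ γ) {t : ℝ}
    (ht : 0 ≤ t) (e : ι × Bool) : (endpt (slice γ t) e ∈ Ω ∧ (endsAt (slice γ t) e).card = 3) ∨
    (endpt (slice γ t) e ∈ frontier Ω ∧ (endsAt (slice γ t) e).card = 1) := by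
  rcases eq_or_lt_of_le ht with h0 | h0
  · subst h0
    have h1 : ∀ e, endpt (slice γ 0) e = endpt σ e := fun e => h.initial e.1 _ (par_mem e.2)
    have h2 : endsAt (slice γ 0) e = endsAt σ e := by
      ext e'
      rw [mem_endsAt, mem_endsAt, h1, h1]
    rw [h1, h2]
    exact hσ.ends e
  · exact (h.network t h0).ends e

lemma IsCurvatureFlow.endpt_cont (h : IsCurvatureFlow Ω σ γ) (e : ι × Bool) :
    ContinuousOn (fun t => endpt (slice γ t) e) (Ici 0) :=
  slice_cont_t (Y := γ e.1) (par_mem e.2) (h.cont e.1)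

/-- The combinatorial structure is constant in time. -/
lemma IsCurvatureFlow.incidence (hΩ : IsOpen Ω) (hσ : IsNetwork Ω σ)
    (h : IsCurvatureFlow Ω σ γ) {t : ℝ} (ht : 0 ≤ t) (e e' : ι × Bool) :
    endpt (slice γ t) e = endpt (slice γ t) e' ↔ endpt σ e = endpt σ e' := by
  have hfr : ∀ z, z ∈ Ω → z ∉ frontier Ω := fun z hz hz' => by
    rw [hΩ.frontier_eq] at hz'; exact hz'.2 hz
  set P : ℝ → ℝ → Prop := fun t t' => ∀ e e' : ι × Bool,
    endpt (slice γ t) e = endpt (slice γ t) e' ↔ endpt (slice γ t') e = endpt (slice γ t') e' with hP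
  have key : P t 0 := by
    refine (isPreconnected_Ici (a := (0:ℝ))).induction₂ P (fun s hs => ?_)
      (fun x y z _ _ _ h1 h2 e e' => (h1 e e').trans (h2 e e'))
      (fun x y _ _ h1 e e' => (h1 e e').symm) ht (by simp : (0:ℝ) ∈ Ici (0:ℝ))
    have h1 : ∀ e e' : ι × Bool, ∀ᶠ s' in 𝓝[Ici 0] s,
        endpt (slice γ s') e = endpt (slice γ s') e' →
        endpt (slice γ s) e = endpt (slice γ s) e' := by
      intro e e'
      by_cases hee : endpt (slice γ s) e = endpt (slice γ s) e'
      · exact Eventually.of_forall (fun _ _ => hee)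
      · have h2 : Tendsto (fun s' => endpt (slice γ s') e - endpt (slice γ s') e') (𝓝[Ici 0] s)
            (𝓝 (endpt (slice γ s) e - endpt (slice γ s) e')) :=
          (h.endpt_cont e s hs).sub (h.endpt_cont e' s hs)
        have h3 := h2.eventually_ne (sub_ne_zero.2 hee)
        filter_upwards [h3] with s' hs' heq
        exact absurd (sub_eq_zero.2 heq) hs'
    have h2 : ∀ e : ι × Bool, ∀ᶠ s' in 𝓝[Ici 0] s, endpt (slice γ s) e ∈ Ω →
        endpt (slice γ s') e ∈ Ω := by
      intro e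
      by_cases he : endpt (slice γ s) e ∈ Ω
      · filter_upwards [(h.endpt_cont e s hs).eventually (hΩ.mem_nhds he)] with s' hs' _
        exact hs'
      · exact Eventually.of_forall (fun _ hh => absurd hh he)
    filter_upwards [eventually_all.2 (fun e => eventually_all.2 (h1 e)), eventually_all.2 h2,
      self_mem_nhdsWithin] with s' g1 g2 g3
    have hsub : ∀ e, endsAt (slice γ s') e ⊆ endsAt (slice γ s) e := fun e e' he' =>
      mem_endsAt.2 (g1 e' e (mem_endsAt.1 he'))
    have heq : ∀ e, endsAt (slice γ s') e = endsAt (slice γ s) e := by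
      intro e
      refine Finset.eq_of_subset_of_card_le (hsub e) ?_
      rcases h.ends_of hσ hs e with ⟨c1, c2⟩ | ⟨c1, c2⟩
      · rcases h.ends_of hσ g3 e with ⟨c3, c4⟩ | ⟨c3, c4⟩
        · rw [c2, c4]
        · exact absurd c3 (hfr _ (g2 e c1))
      · rw [c2]
        exact Finset.card_pos.2 ⟨e, mem_endsAt.2 rfl⟩
    intro e e'
    have := Finset.ext_iff.1 (heq e') e
    rw [mem_endsAt, mem_endsAt] at this
    exact this.symm
  have h0 : ∀ e, endpt (slice γ 0) e = endpt σ e := fun e => h.initial e.1 _ (par_mem e.2)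
  have := key e e'
  rw [h0, h0] at this
  exact this

lemma IsC21.cdata {u : ℝ → ℝ → ℂ} (h : IsC21 u) : CData u (fun t => dX (u t))
    (fun t => dX (dX (u t))) (fun t x => deriv (fun s => u s x) t) where
  hx := fun t ht x hx => (h.diff_x t ht x hx).hasDerivWithinAt
  hxx := fun t ht x hx => (h.diff_xx t ht x hx).hasDerivWithinAt
  ht := fun t ht x hx => (h.diff_t t ht x hx).hasDerivAt
  cx := h.cont_x
  cxx := h.cont_xx
  ct := h.cont_t

/-- The type of vertices: their initial positions. -/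
abbrev Vtx (σ : ι → ℝ → ℂ) : Type := {z : ℂ // z ∈ range (endpt σ)}

/-- The vertex at which an end sits. -/
def vx (σ : ι → ℝ → ℂ) (e : ι × Bool) : Vtx σ := ⟨endpt σ e, e, rfl⟩

lemma vx_eq {σ : ι → ℝ → ℂ} {e e' : ι × Bool} : vx σ e = vx σ e' ↔ endpt σ e = endpt σ e' :=
  Subtype.ext_iff

/-- The position of a vertex. -/
noncomputable def vpos (σ : ι → ℝ → ℂ) (γ : ι → ℝ → ℝ → ℂ) (w : Vtx σ) (t : ℝ) : ℂ :=
  endpt (slice γ t) w.2.choose

lemma IsCurvatureFlow.vpos_eq (hΩ : IsOpen Ω) (hσ : IsNetwork Ω σ)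
    (h : IsCurvatureFlow Ω σ γ) {t : ℝ} (ht : 0 ≤ t) (e : ι × Bool) :
    vpos σ γ (vx σ e) t = endpt (slice γ t) e :=
  (h.incidence hΩ hσ ht _ _).2 (vx σ e).2.choose_spec

open Classical in
lemma IsCurvatureFlow.aflow (hΩ : IsOpen Ω) (hσ : IsNetwork Ω σ)
    (h : IsCurvatureFlow Ω σ γ) :
    AFlow γ (fun i t => dX (γ i t)) (fun i t => dX (dX (γ i t)))
      (fun i t x => deriv (fun s => γ i s x) t) (vx σ) (vpos σ γ) {w | w.1 ∈ frontier Ω} := by
  have hfr : ∀ z, z ∈ Ω → z ∉ frontier Ω := fun z hz hz' => by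
    rw [hΩ.frontier_eq] at hz'; exact hz'.2 hz
  have hfil : ∀ (e : ι × Bool) (t : ℝ), 0 ≤ t →
      Finset.univ.filter (fun e' => vx σ e' = vx σ e) = endsAt (slice γ t) e := by
    intro e t ht
    ext e'
    rw [mem_endsAt, h.incidence hΩ hσ ht, Finset.mem_filter, vx_eq]
    simp
  have hin : ∀ (e : ι × Bool) (t : ℝ), 0 ≤ t → endpt σ e ∉ frontier Ω →
      endpt (slice γ t) e ∈ Ω ∧ (endsAt (slice γ t) e).card = 3 := by
    intro e t ht he
    have h3 : (endsAt σ e).card = 3 := by
      rcases hσ.ends e with h1 | h1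
      · exact h1.2
      · exact absurd h1.1 he
    have h4 : endsAt (slice γ t) e = endsAt σ e := by
      ext e'
      rw [mem_endsAt, mem_endsAt, h.incidence hΩ hσ ht]
    rcases h.ends_of hσ ht e with h1 | h1
    · exact h1
    · rw [h4, h3] at h1
      omega
  refine ⟨fun i => (h.smooth i).cdata, fun i t ht x hx => (h.network t ht).regular i x hx,
    fun i t ht x hx => ?_, fun e t ht => ?_, fun w hw t ht => ?_, fun w hw t ht => ?_,
    fun w hw => ?_⟩
  · obtain ⟨lam, _, hlam⟩ := h.motion i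
    exact ⟨lam t x, hlam t ht x hx⟩
  · exact (h.vpos_eq hΩ hσ ht.le e).symm
  · obtain ⟨z, e, rfl⟩ := w
    have h1 : ∀ s > 0, vpos σ γ ⟨endpt σ e, e, rfl⟩ s = endpt σ e := fun s hs =>
      (h.vpos_eq hΩ hσ hs.le e).trans (h.fixed e hw s hs)
    rw [h1 t ht, h1 1 one_pos]
  · obtain ⟨z, e, rfl⟩ := w
    have h1 := hin e t ht.le hw
    have h2 := h.angles t ht e h1.1
    have h3 := hfil e t ht.le
    rw [← h2]
    change ∑ d ∈ Finset.univ.filter (fun d => vx σ d = vx σ e), _ = _
    rw [h3]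
    exact Finset.sum_congr rfl (fun d _ => (extTangent_eq (slice γ t) d).symm)
  · obtain ⟨z, e, rfl⟩ := w
    change (Finset.univ.filter (fun d => vx σ d = vx σ e)).card = 3
    rw [hfil e 0 le_rfl]
    exact (hin e 0 le_rfl hw).2

lemma limEnd_vx (q : Vtx σ → ℂ) (e : ι × Bool) :
    limEnd (fun i => q (vx σ (i, false))) (fun i => q (vx σ (i, true))) e = q (vx σ e) := by
  rcases e with ⟨i, b⟩
  cases b <;> simp [limEnd]

open Classical in
/-- **Every globally defined curvature flow of a network with fixed end-points converges**, as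
`t → ∞`, to a network which is stationary for the length. -/
theorem IsCurvatureFlow.converges (hΩ : IsOpen Ω) (hσ : IsNetwork Ω σ)
    (h : IsCurvatureFlow Ω σ γ) :
    ∃ a b : ι → ℂ, ConvergesTo γ a b ∧ IsStationary Ω σ a b := by
  have A := h.aflow hΩ hσ
  obtain ⟨e, he, hc⟩ := A.exists_convDir
  obtain ⟨q, hq, hL⟩ := A.converges he hc
  set a : ι → ℂ := fun i => q (vx σ (i, false)) with ha
  set b : ι → ℂ := fun i => q (vx σ (i, true)) with hb
  have hchord : ∀ i, b i - a i = ‖b i - a i‖ • e i := fun i => hL.chord_eq he i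
  -- reparametrisations
  have hrep : ∀ (i : ι) (t : ℝ), ∃ θ : ℝ → ℝ, 0 < t → (IsReparam θ ∧ ∀ x ∈ Icc (0:ℝ) 1,
      HasDerivWithinAt θ ((∫ y in (0:ℝ)..1, ‖dX (γ i t) y‖) / ‖dX (γ i t) (θ x)‖) (Icc 0 1) x) := by
    intro i t
    by_cases ht : 0 < t
    · obtain ⟨θ, h1, h2⟩ := exists_reparam (A.cux ht i) (A.reg i t ht)
      exact ⟨θ, fun _ => ⟨h1, h2⟩⟩
    · exact ⟨id, fun h0 => absurd h0 ht⟩
  choose θ hθ using hrep
  have hconv : ∀ i, ∀ ε > 0, ∀ᶠ t in atTop, ∀ x ∈ Icc (0:ℝ) 1,
      ‖γ i t (θ i t x) - seg (a i) (b i) x‖ < ε ∧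
      ‖dX (fun y => γ i t (θ i t y)) x - dX (seg (a i) (b i)) x‖ < ε := by
    intro i ε hε
    filter_upwards [A.c1_conv he hc hq hL i hε, eventually_gt_atTop 0] with t h1 h2
    exact h1 (θ i t) (hθ i t h2).1 (hθ i t h2).2
  refine ⟨a, b, ⟨?_, fun i => A.length_conv he hc hq hL i, fun i hi ε hε => ?_, fun i _ =>
    ⟨θ i, fun t ht => (hθ i t ht).1, hconv i⟩⟩, ⟨⟨fun e e' hee => ?_, fun e' he' => ?_⟩, fun z hz => ?_,
    fun a' b' hs => ?_⟩⟩
  · -- Hausdorff convergence
    rw [Metric.tendsto_atTop']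
    intro ε hε
    have h1 : ∀ᶠ t in atTop, ∀ i, ∀ x ∈ Icc (0:ℝ) 1,
        ‖γ i t (θ i t x) - seg (a i) (b i) x‖ < ε / 2 := by
      rw [eventually_all]
      intro i
      filter_upwards [hconv i (ε / 2) (half_pos hε)] with t ht x hx
      exact (ht x hx).1
    obtain ⟨T, hT⟩ := (h1.and (eventually_gt_atTop 0)).exists_forall_of_atTop
    refine ⟨T, fun t ht => ?_⟩
    obtain ⟨h2, h3⟩ := hT t ht.le
    rw [Real.dist_eq, sub_zero, abs_of_nonneg Metric.hausdorffDist_nonneg]
    refine lt_of_le_of_lt (Metric.hausdorffDist_le_of_mem_dist (half_pos hε).le ?_ ?_) (half_lt_self hε)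
    · intro y hy
      obtain ⟨i, hi⟩ := mem_iUnion.1 hy
      obtain ⟨z, hz, rfl⟩ := hi
      obtain ⟨x, hx, rfl⟩ := (hθ i t h3).1.bij.surjOn hz
      refine ⟨seg (a i) (b i) x, mem_iUnion.2 ⟨i, x, hx, rfl⟩, ?_⟩
      rw [dist_eq_norm]
      exact (h2 i x hx).le
    · intro y hy
      obtain ⟨i, hi⟩ := mem_iUnion.1 hy
      obtain ⟨x, hx, rfl⟩ := hi
      refine ⟨γ i t (θ i t x), mem_iUnion.2 ⟨i, θ i t x, (hθ i t h3).1.bij.mapsTo hx, rfl⟩, ?_⟩
      rw [dist_comm, dist_eq_norm]
      exact (h2 i x hx).le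
  · -- collapse
    filter_upwards [hconv i ε hε, eventually_gt_atTop 0] with t h1 h2 z hz
    obtain ⟨x, hx, rfl⟩ := (hθ i t h2).1.bij.surjOn hz
    have h3 := (h1 x hx).1
    have h4 : seg (a i) (b i) x = a i := by simp [seg, ← hi]
    rwa [h4] at h3
  · -- incidence
    rw [limEnd_vx, limEnd_vx, vx_eq.2 hee]
  · -- fixed end-points
    rw [limEnd_vx, hL.bd (vx σ e') he', h.vpos_eq hΩ hσ zero_le_one]
    exact h.fixed e' he' 1 one_pos
  · -- balance
    have hT : ∀ d ∈ Finset.univ.filter (fun d : ι × Bool => a d.1 ≠ b d.1 ∧ limEnd a b d = z),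
        limTangent a b d = sgn d.2 • e d.1 := by
      intro d hd
      have hne : b d.1 - a d.1 ≠ 0 := sub_ne_zero.2 (Finset.mem_filter.1 hd).2.1.symm
      have hn : ‖b d.1 - a d.1‖ ≠ 0 := norm_ne_zero_iff.2 hne
      have h1 : (‖b d.1 - a d.1‖⁻¹ : ℝ) • (b d.1 - a d.1) = e d.1 := by
        have := hchord d.1
        calc (‖b d.1 - a d.1‖⁻¹ : ℝ) • (b d.1 - a d.1) =
              (‖b d.1 - a d.1‖⁻¹ : ℝ) • (‖b d.1 - a d.1‖ • e d.1) := by rw [← this]
          _ = e d.1 := by rw [smul_smul, inv_mul_cancel₀ hn, one_smul]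
      rcases d with ⟨i, s⟩
      cases s
      · simp only [limTangent, cond_false, sgn, one_smul]
        exact h1
      · simp only [limTangent, cond_true, sgn, neg_smul, one_smul]
        rw [← neg_sub (b i) (a i), smul_neg]
        exact congrArg Neg.neg h1
    rw [Finset.sum_congr rfl hT]
    have hall : ∑ d ∈ Finset.univ.filter (fun d : ι × Bool => limEnd a b d = z),
        sgn d.2 • e d.1 = 0 := by
      have h1 : ∀ d : ι × Bool, limEnd a b d = q (vx σ d) := fun d => limEnd_vx q d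
      rw [← Finset.sum_fiberwise _ (vx σ)]
      refine Finset.sum_eq_zero (fun w _ => ?_)
      rw [Finset.filter_filter]
      by_cases hw : q w = z
      · have h2 : Finset.univ.filter (fun d : ι × Bool => limEnd a b d = z ∧ vx σ d = w) =
            Finset.univ.filter (fun d : ι × Bool => vx σ d = w) := by
          ext d
          simp only [Finset.mem_filter, Finset.mem_univ, true_and]
          constructor
          · exact fun h => h.2
          · intro hd
            exact ⟨by rw [h1, hd, hw], hd⟩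
        rw [h2]
        apply he.bal w
        intro hwB
        obtain ⟨z', d, rfl⟩ := w
        apply hz d hwB
        rw [← hw]
        have := hL.bd (vx σ d) hwB
        rw [h.vpos_eq hΩ hσ zero_le_one] at this
        exact (h.fixed d hwB 1 one_pos).symm.trans this.symm
      · refine Finset.sum_eq_zero (fun d hd => ?_)
        exfalso
        have h3 := (Finset.mem_filter.1 hd).2
        apply hw
        rw [← h3.2, ← h1, h3.1]
    have hcol : ∑ d ∈ Finset.univ.filter (fun d : ι × Bool => a d.1 = b d.1 ∧ limEnd a b d = z),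
        sgn d.2 • e d.1 = 0 := by
      rw [Finset.sum_filter, Fintype.sum_prod_type]
      refine Finset.sum_eq_zero (fun i _ => ?_)
      rw [Fintype.sum_bool]
      by_cases hi : a i = b i
      · have h1 : limEnd a b (i, true) = limEnd a b (i, false) := by
          simp only [limEnd, cond_true, cond_false, hi]
        simp only [h1, sgn, cond_true, cond_false]
        split_ifs <;> simp
      · simp [hi]
    have hsplit := Finset.sum_filter_add_sum_filter_not
      (Finset.univ.filter (fun d : ι × Bool => limEnd a b d = z))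
      (fun d => a d.1 ≠ b d.1) (fun d => sgn d.2 • e d.1)
    rw [Finset.filter_filter, Finset.filter_filter, hall] at hsplit
    have e1 : Finset.univ.filter (fun d : ι × Bool => limEnd a b d = z ∧ a d.1 ≠ b d.1) =
        Finset.univ.filter (fun d : ι × Bool => a d.1 ≠ b d.1 ∧ limEnd a b d = z) := by
      ext d; simp [and_comm]
    have e2 : Finset.univ.filter (fun d : ι × Bool => limEnd a b d = z ∧ ¬ (a d.1 ≠ b d.1)) =
        Finset.univ.filter (fun d : ι × Bool => a d.1 = b d.1 ∧ limEnd a b d = z) := by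
      ext d; simp [and_comm]
    rw [e1, e2, hcol, add_zero] at hsplit
    exact hsplit
  · -- minimality
    set y' : Vtx σ → ℂ := fun w => limEnd a' b' w.2.choose with hy'
    have hy'e : ∀ d : ι × Bool, y' (vx σ d) = limEnd a' b' d := fun d =>
      hs.incidence _ _ (vx σ d).2.choose_spec
    have h0 : ∑ i, inner ℝ (e i) ((b' i - a' i) - (b i - a i)) = 0 := by
      have h1 := sum_ends (vx σ) (fun d => inner ℝ (e d.1) (y' (vx σ d) - q (vx σ d))) (fun w => ?_)
      · refine (Finset.sum_congr rfl (fun i _ => ?_)).trans h1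
        rw [hy'e, hy'e, ← inner_sub_right]
        congr 1
        simp only [limEnd, cond_true, cond_false, ha, hb]
        ring
      · have h2 : ∀ d ∈ Finset.univ.filter (fun d => vx σ d = w),
            sgn d.2 * inner ℝ (e d.1) (y' (vx σ d) - q (vx σ d)) =
            inner ℝ (sgn d.2 • e d.1) (y' w - q w) := by
          intro d hd
          rw [(Finset.mem_filter.1 hd).2, real_inner_smul_left]
        rw [Finset.sum_congr rfl h2, ← sum_inner]
        by_cases hw : w ∈ {w : Vtx σ | w.1 ∈ frontier Ω}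
        · have h3 : y' w - q w = 0 := by
            obtain ⟨z', d, rfl⟩ := w
            have h4 : y' (vx σ d) = endpt σ d := by rw [hy'e, hs.fixed d hw]
            have h5 : q (vx σ d) = endpt σ d := by
              rw [hL.bd (vx σ d) hw, h.vpos_eq hΩ hσ zero_le_one]
              exact h.fixed d hw 1 one_pos
            exact sub_eq_zero.2 (h4.trans h5.symm)
          rw [h3, inner_zero_right]
        · rw [he.bal w hw, inner_zero_left]
    have h1 : ∑ i, inner ℝ (e i) (b' i - a' i) = ∑ i, ‖b i - a i‖ := by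
      have h2 : ∀ i, inner ℝ (e i) (b i - a i) = ‖b i - a i‖ := by
        intro i
        have h3 : inner ℝ (e i) (b i - a i) = inner ℝ (e i) (‖b i - a i‖ • e i) :=
          congrArg (fun z => (inner ℝ (e i) z : ℝ)) (hchord i)
        rw [h3, real_inner_smul_right, real_inner_self_eq_norm_sq, he.norm]
        ring
      simp only [inner_sub_right (e _) (b' _ - a' _) (b _ - a _)] at h0
      rw [Finset.sum_sub_distrib] at h0
      rw [← Finset.sum_congr rfl (fun i _ => h2 i)]
      linarith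
    rw [← h1]
    refine Finset.sum_le_sum (fun i _ => ?_)
    refine (real_inner_le_norm _ _).trans ?_
    rw [he.norm, one_mul]

end Pool.Agent.R732.Net
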