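import Pool.Agent.R732.Net.Analysis

/-! The evolution of length, of the anisotropic lengths which detect the slope relative to a fixed
direction, and of the enclosed area, along a curve moving with normal velocity its curvature. -/

open Set Filter Topology MeasureTheory

namespace Pool.Agent.R732.Net

/-- Curvature of a curve with first derivative `v` and second derivative `w`. -/
noncomputable def kap (v w : ℂ) : ℝ := inner ℝ w (Complex.I * ((‖v‖⁻¹ : ℝ) • v)) / ‖v‖ ^ 2

/-- `z` is a velocity with normal component the curvature. -/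
def Moves (v w z : ℂ) : Prop :=
  ∃ l : ℝ, z = kap v w • (Complex.I * ((‖v‖⁻¹ : ℝ) • v)) + l • ((‖v‖⁻¹ : ℝ) • v)

lemma inner_eq (z w : ℂ) : inner ℝ z w = z.re * w.re + z.im * w.im := by
  rw [Complex.inner]; simp [Complex.mul_re]; ring

lemma norm_sq_eq (v : ℂ) : ‖v‖ ^ 2 = v.re * v.re + v.im * v.im := by
  rw [← Complex.normSq_eq_norm_sq, Complex.normSq_apply]

lemma kap_eq {v : ℂ} (w : ℂ) (hv : v ≠ 0) : kap v w = (v.re * w.im - v.im * w.re) / ‖v‖ ^ 3 := by
  have h : ‖v‖ ≠ 0 := norm_ne_zero_iff.2 hv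
  simp only [kap, inner_eq, Complex.mul_re, Complex.mul_im, Complex.I_re, Complex.I_im,
    Complex.real_smul, Complex.ofReal_re, Complex.ofReal_im]
  field_simp
  ring

lemma length_integrand {v w z : ℂ} (hv : v ≠ 0) (hz : Moves v w z) :
    inner ℝ ((‖v‖⁻¹ : ℝ) • w - (inner ℝ v w / ‖v‖ ^ 3) • v) z = kap v w ^ 2 * ‖v‖ := by
  obtain ⟨l, rfl⟩ := hz
  have h : ‖v‖ ≠ 0 := norm_ne_zero_iff.2 hv
  have h2 := norm_sq_eq v
  rw [kap_eq w hv]
  simp only [inner_eq, Complex.mul_re, Complex.mul_im, Complex.I_re, Complex.I_im,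
    Complex.real_smul, Complex.ofReal_re, Complex.ofReal_im, Complex.add_re, Complex.add_im,
    Complex.sub_re, Complex.sub_im]
  set n := ‖v‖ with hn
  have e1 : (v.re * w.im - v.im * w.re) ^ 2 * n ^ 2 = (v.re * w.im - v.im * w.re) ^ 2 *
    (v.re * v.re + v.im * v.im) := by rw [h2]
  field_simp
  ring_nf
  ring_nf at h2
  have h4 : n ^ 4 = (v.re ^ 2 + v.im ^ 2) ^ 2 := by rw [← h2]; ring
  have h3 : n ^ 3 = n * (v.re ^ 2 + v.im ^ 2) := by rw [← h2]; ring
  have h5 : n ^ 5 = n * (v.re ^ 2 + v.im ^ 2) ^ 2 := by rw [← h2]; ring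
  have h6 : n ^ 6 = (v.re ^ 2 + v.im ^ 2) ^ 3 := by rw [← h2]; ring
  simp only [h2, h3, h4, h5, h6]
  ring

lemma tangent_deriv {f f' : ℝ → ℂ} {x : ℝ} {s : Set ℝ} (hf : HasDerivWithinAt f (f' x) s x)
    (h0 : f x ≠ 0) : HasDerivWithinAt (fun x => (‖f x‖⁻¹ : ℝ) • f x)
      ((‖f x‖⁻¹ : ℝ) • f' x - (inner ℝ (f x) (f' x) / ‖f x‖ ^ 3) • f x) s x := by
  have hn : ‖f x‖ ≠ 0 := norm_ne_zero_iff.2 h0
  have h1 : HasDerivWithinAt (fun x => ‖f x‖) (inner ℝ (f x) (f' x) / ‖f x‖) s x := by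
    have h2 := (hf.norm_sq).sqrt (by positivity)
    have h3 : (fun y => √(‖f y‖ ^ 2)) = fun y => ‖f y‖ := by
      funext y; exact Real.sqrt_sq (norm_nonneg _)
    rw [h3, Real.sqrt_sq (norm_nonneg _)] at h2
    convert h2 using 1
    field_simp
  have h2 : HasDerivWithinAt (fun x => (‖f x‖⁻¹ : ℝ) • f x) _ s x := (h1.inv hn).smul hf
  refine h2.congr_deriv ?_
  simp only [Pi.inv_apply]
  rw [sub_eq_add_neg, ← neg_smul]
  congr 2
  field_simp

lemma continuousOn_inv_norm_smul {J : Set (ℝ × ℝ)} {f : ℝ × ℝ → ℂ} (hf : ContinuousOn f J)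
    (h0 : ∀ p ∈ J, f p ≠ 0) : ContinuousOn (fun p => (‖f p‖⁻¹ : ℝ) • f p) J :=
  (hf.norm.inv₀ (fun p hp => norm_ne_zero_iff.2 (h0 p hp))).smul hf

/-- Evolution of the length. -/
lemma length_deriv {u ux uxx ut : ℝ → ℝ → ℂ} (hu : CData u ux uxx ut)
    (hreg : ∀ t > 0, ∀ x ∈ Icc (0:ℝ) 1, ux t x ≠ 0)
    (hmot : ∀ t > 0, ∀ x ∈ Icc (0:ℝ) 1, Moves (ux t x) (uxx t x) (ut t x)) {t : ℝ} (ht : 0 < t) :
    HasDerivAt (fun s => ∫ x in (0:ℝ)..1, ‖ux s x‖)
      (inner ℝ ((‖ux t 1‖⁻¹ : ℝ) • ux t 1) (ut t 1) - inner ℝ ((‖ux t 0‖⁻¹ : ℝ) • ux t 0) (ut t 0)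
        - ∫ x in (0:ℝ)..1, kap (ux t x) (uxx t x) ^ 2 * ‖ux t x‖) t := by
  have hsub : Ioo 0 (t + 1) ⊆ Ioi (0:ℝ) := fun s hs => hs.1
  have hne : ∀ p ∈ Ioo 0 (t + 1) ×ˢ Icc (0:ℝ) 1, ux p.1 p.2 ≠ 0 := fun p hp =>
    hreg p.1 hp.1.1 p.2 hp.2
  have cu := hu.cx.mono (prod_mono hsub (Subset.refl _))
  have cuu := hu.cxx.mono (prod_mono hsub (Subset.refl _))
  have h := first_variation hu (a := 0) (b := t + 1) le_rfl (g := fun v => ‖v‖)
    (X := fun s x => (‖ux s x‖⁻¹ : ℝ) • ux s x)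
    (Z := fun s x => (‖ux s x‖⁻¹ : ℝ) • uxx s x -
      (inner ℝ (ux s x) (uxx s x) / ‖ux s x‖ ^ 3) • ux s x)
    (fun s hs x hx => tangent_deriv (hu.hxx s hs.1 x hx) (hreg s hs.1 x hx))
    (continuousOn_inv_norm_smul cu hne) ?_ cu.norm ?_ (t := t) ⟨ht, by linarith⟩
  · convert h using 2
    refine intervalIntegral.integral_congr (fun x hx => ?_)
    rw [uIcc_of_le zero_le_one] at hx
    exact (length_integrand (hreg t ht x hx) (hmot t ht x hx)).symm
  · have hn : ∀ p ∈ Ioo 0 (t + 1) ×ˢ Icc (0:ℝ) 1, ‖ux p.1 p.2‖ ≠ 0 := fun p hp =>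
      norm_ne_zero_iff.2 (hne p hp)
    refine ((cu.norm.inv₀ hn).smul cuu).sub (ContinuousOn.smul (ContinuousOn.div
      (cu.inner (𝕜 := ℝ) cuu) (cu.norm.pow 3) (fun p hp => pow_ne_zero 3 (hn p hp))) cu)
  · intro s hs s' hs' x hx
    have hn : ‖ux s x‖ ≠ 0 := norm_ne_zero_iff.2 (hreg s hs.1 x hx)
    have hpos : 0 < ‖ux s x‖ := lt_of_le_of_ne (norm_nonneg _) (Ne.symm hn)
    have h1 : inner ℝ (ux s x) (ux s' x) ≤ ‖ux s x‖ * ‖ux s' x‖ := real_inner_le_norm _ _
    rw [real_inner_smul_left, inner_sub_right, real_inner_self_eq_norm_sq]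
    rw [inv_mul_le_iff₀ hpos]
    nlinarith

/-! ### The cubic slope penalty -/

/-- The positive part cubed. -/
noncomputable def pc (y : ℝ) : ℝ := (max y 0) ^ 3

lemma pc_deriv (y : ℝ) : HasDerivAt pc (3 * (max y 0) ^ 2) y := by
  rcases lt_trichotomy y 0 with h | h | h
  · have h1 : pc =ᶠ[𝓝 y] fun _ => 0 := by
      filter_upwards [gt_mem_nhds h] with z hz
      simp [pc, max_eq_right hz.le]
    rw [max_eq_right h.le]
    simpa using (hasDerivAt_const y (0:ℝ)).congr_of_eventuallyEq h1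
  · subst h
    rw [hasDerivAt_iff_isLittleO]
    simp only [max_self, ne_eq, OfNat.ofNat_ne_zero, not_false_eq_true, zero_pow, mul_zero,
      sub_zero, smul_zero, pc]
    have h1 : (fun x : ℝ => (max x 0) ^ 3) =O[𝓝 0] fun x : ℝ => x ^ 3 := by
      refine Asymptotics.IsBigO.of_bound 1 (Eventually.of_forall (fun x => ?_))
      rw [Real.norm_eq_abs, Real.norm_eq_abs, one_mul, abs_pow, abs_pow]
      apply pow_le_pow_left₀ (abs_nonneg _)
      rcases le_total x 0 with hx | hx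
      · simp [max_eq_right hx]
      · simp [max_eq_left hx]
    refine h1.trans_isLittleO ?_
    have h2 := Asymptotics.isLittleO_pow_pow (𝕜 := ℝ) (m := 1) (n := 3) (by norm_num)
    simpa using h2
  · have h1 : pc =ᶠ[𝓝 y] fun y => y ^ 3 := by
      filter_upwards [lt_mem_nhds h] with z hz
      simp [pc, max_eq_left hz.le]
    rw [max_eq_left h.le]
    have h2 := (hasDerivAt_pow 3 y).congr_of_eventuallyEq h1
    simpa using h2

/-- Derivative of the positive part cubed. -/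
noncomputable def pc' (y : ℝ) : ℝ := 3 * (max y 0) ^ 2

lemma pc'_deriv (y : ℝ) : HasDerivAt pc' (6 * max y 0) y := by
  rcases lt_trichotomy y 0 with h | h | h
  · have h1 : pc' =ᶠ[𝓝 y] fun _ => 0 := by
      filter_upwards [gt_mem_nhds h] with z hz
      simp [pc', max_eq_right hz.le]
    rw [max_eq_right h.le]
    simpa using (hasDerivAt_const y (0:ℝ)).congr_of_eventuallyEq h1
  · subst h
    rw [hasDerivAt_iff_isLittleO]
    simp only [max_self, ne_eq, OfNat.ofNat_ne_zero, not_false_eq_true, zero_pow, mul_zero,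
      sub_zero, smul_zero, pc']
    have h1 : (fun x : ℝ => 3 * (max x 0) ^ 2) =O[𝓝 0] fun x : ℝ => x ^ 2 := by
      refine Asymptotics.IsBigO.of_bound 3 (Eventually.of_forall (fun x => ?_))
      rw [Real.norm_eq_abs, Real.norm_eq_abs, abs_mul, abs_pow, abs_pow, abs_of_pos (by norm_num : (0:ℝ) < 3)]
      apply mul_le_mul_of_nonneg_left _ (by norm_num)
      apply pow_le_pow_left₀ (abs_nonneg _)
      rcases le_total x 0 with hx | hx
      · simp [max_eq_right hx]
      · simp [max_eq_left hx]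
    refine h1.trans_isLittleO ?_
    have h2 := Asymptotics.isLittleO_pow_pow (𝕜 := ℝ) (m := 1) (n := 2) (by norm_num)
    simpa using h2
  · have h1 : pc' =ᶠ[𝓝 y] fun y => 3 * y ^ 2 := by
      filter_upwards [lt_mem_nhds h] with z hz
      simp [pc', max_eq_left hz.le]
    rw [max_eq_left h.le]
    have h2 := ((hasDerivAt_pow 2 y).const_mul 3).congr_of_eventuallyEq h1
    refine h2.congr_deriv ?_
    norm_num; ring

lemma pc_convex (y z : ℝ) : pc' y * (z - y) ≤ pc z - pc y := by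
  simp only [pc, pc']
  set p := max y 0 with hp
  set q := max z 0 with hq
  have hp0 : 0 ≤ p := le_max_right _ _
  have hq0 : 0 ≤ q := le_max_right _ _
  have h1 : p ^ 2 * y = p ^ 3 := by
    rcases le_total y 0 with h | h
    · rw [hp, max_eq_right h]; ring
    · rw [hp, max_eq_left h]; ring
  have h2 : p ^ 2 * z ≤ p ^ 2 * q := mul_le_mul_of_nonneg_left (le_max_left _ _) (by positivity)
  nlinarith [mul_nonneg (sq_nonneg (q - p)) (by linarith : 0 ≤ q + 2 * p)]

/-- The penalty for slopes larger than `m` in absolute value. -/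
noncomputable def ph (m y : ℝ) : ℝ := pc (y - m) + pc (-y - m)
/-- Its derivative. -/
noncomputable def ph' (m y : ℝ) : ℝ := pc' (y - m) - pc' (-y - m)
/-- Its second derivative. -/
noncomputable def ph'' (m y : ℝ) : ℝ := 6 * max (y - m) 0 + 6 * max (-y - m) 0

lemma ph_deriv (m y : ℝ) : HasDerivAt (ph m) (ph' m y) y := by
  have h1 := (pc_deriv (y - m)).comp y ((hasDerivAt_id y).sub_const m)
  have h2 := (pc_deriv (-y - m)).comp y (((hasDerivAt_id y).neg).sub_const m)
  have h3 : HasDerivAt (ph m) _ y := h1.add h2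
  refine h3.congr_deriv ?_
  simp only [ph', pc']; ring

lemma ph'_deriv (m y : ℝ) : HasDerivAt (ph' m) (ph'' m y) y := by
  have h1 := (pc'_deriv (y - m)).comp y ((hasDerivAt_id y).sub_const m)
  have h2 := (pc'_deriv (-y - m)).comp y (((hasDerivAt_id y).neg).sub_const m)
  have h3 : HasDerivAt (ph' m) _ y := h1.sub h2
  refine h3.congr_deriv ?_
  simp only [ph'']; ring

lemma ph_convex (m y z : ℝ) : ph' m y * (z - y) ≤ ph m z - ph m y := by
  have h1 := pc_convex (y - m) (z - m)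
  have h2 := pc_convex (-y - m) (-z - m)
  simp only [ph, ph']
  linarith

lemma ph''_nonneg (m y : ℝ) : 0 ≤ ph'' m y := by
  have h1 := le_max_right (y - m) 0
  have h2 := le_max_right (-y - m) 0
  simp only [ph'']; linarith

lemma ph_nonneg (m y : ℝ) : 0 ≤ ph m y := by
  have h1 := le_max_right (y - m) 0
  have h2 := le_max_right (-y - m) 0
  simp only [ph, pc]; positivity

lemma ph_eq_zero {m y : ℝ} : ph m y = 0 ↔ |y| ≤ m := by
  have h1 := le_max_right (y - m) 0
  have h2 := le_max_right (-y - m) 0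
  have h1' : 0 ≤ (max (y - m) 0) ^ 3 := by positivity
  have h2' : 0 ≤ (max (-y - m) 0) ^ 3 := by positivity
  simp only [ph, pc]
  rw [add_eq_zero_iff_of_nonneg h1' h2', pow_eq_zero_iff (by norm_num), pow_eq_zero_iff (by norm_num),
    max_eq_right_iff, max_eq_right_iff, abs_le]
  constructor
  · rintro ⟨h3, h4⟩; constructor <;> linarith
  · rintro ⟨h3, h4⟩; constructor <;> linarith

lemma ph_cont (m : ℝ) : Continuous (ph m) :=
  continuous_iff_continuousAt.2 fun y => (ph_deriv m y).continuousAt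

lemma ph'_cont (m : ℝ) : Continuous (ph' m) :=
  continuous_iff_continuousAt.2 fun y => (ph'_deriv m y).continuousAt

lemma ph''_cont (m : ℝ) : Continuous (ph'' m) := by
  unfold ph''; fun_prop

/-- Slope of `v` relative to the direction `e`. -/
noncomputable def slp (e v : ℂ) : ℝ := inner ℝ (Complex.I * e) v / inner ℝ e v

/-- The anisotropic length density. -/
noncomputable def gg (m : ℝ) (e v : ℂ) : ℝ := inner ℝ e v * ph m (slp e v)

/-- The gradient of `gg`, as a function of the slope. -/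
noncomputable def XX (m : ℝ) (e : ℂ) (y : ℝ) : ℂ :=
  (ph m y - y * ph' m y) • e + ph' m y • (Complex.I * e)

lemma XX_inner (m : ℝ) (e : ℂ) (y : ℝ) (v : ℂ) : inner ℝ (XX m e y) v =
    (ph m y - y * ph' m y) * inner ℝ e v + ph' m y * inner ℝ (Complex.I * e) v := by
  simp only [XX, inner_add_left, real_inner_smul_left]

lemma XX_deriv (m : ℝ) (e : ℂ) (y : ℝ) :
    HasDerivAt (XX m e) (ph'' m y • (-(y • e) + Complex.I * e)) y := by
  have h1 := ((ph_deriv m y).sub ((hasDerivAt_id y).mul (ph'_deriv m y))).smul_const e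
  have h2 := (ph'_deriv m y).smul_const (Complex.I * e)
  have h3 : HasDerivAt (XX m e) _ y := h1.add h2
  refine h3.congr_deriv ?_
  simp only [id, one_mul, smul_add, smul_neg, smul_smul]
  congr 1
  rw [← neg_smul]
  congr 1
  ring

lemma gg_subgradient (m : ℝ) {e p q : ℂ} (hp : 0 < inner ℝ e p) (hq : 0 < inner ℝ e q) :
    inner ℝ (XX m e (slp e p)) (q - p) ≤ gg m e q - gg m e p := by
  rw [XX_inner]
  have h := ph_convex m (slp e p) (slp e q)
  have h1 := mul_le_mul_of_nonneg_left h hq.le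
  simp only [gg, inner_sub_right]
  have e1 : inner ℝ (Complex.I * e) q = inner ℝ e q * slp e q := by
    rw [slp]; field_simp
  have e2 : inner ℝ (Complex.I * e) p = inner ℝ e p * slp e p := by
    rw [slp]; field_simp
  rw [e1, e2]
  nlinarith [h1]

lemma slope_integrand {m : ℝ} {e v w z : ℂ} (he : ‖e‖ = 1) (hv : 0 < inner ℝ e v)
    (hz : Moves v w z) :
    0 ≤ inner ℝ (((inner ℝ (Complex.I * e) w * inner ℝ e v
        - inner ℝ (Complex.I * e) v * inner ℝ e w) / inner ℝ e v ^ 2) •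
      (ph'' m (slp e v) • (-(slp e v • e) + Complex.I * e))) z := by
  have hv0 : v ≠ 0 := by rintro rfl; simp at hv
  have hn : ‖v‖ ≠ 0 := norm_ne_zero_iff.2 hv0
  have hnp : 0 < ‖v‖ := norm_pos_iff.2 hv0
  obtain ⟨l, rfl⟩ := hz
  rw [real_inner_smul_left, real_inner_smul_left]
  have h2 := norm_sq_eq v
  have h1 := norm_sq_eq e
  rw [he] at h1
  have key : inner ℝ (-(slp e v • e) + Complex.I * e)
      (kap v w • (Complex.I * ((‖v‖⁻¹ : ℝ) • v)) + l • ((‖v‖⁻¹ : ℝ) • v)) =
      kap v w * ‖v‖ / inner ℝ e v := by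
    have ha : inner ℝ e v ≠ 0 := hv.ne'
    rw [slp]
    simp only [inner_eq, Complex.mul_re, Complex.mul_im, Complex.I_re, Complex.I_im,
      Complex.real_smul, Complex.ofReal_re, Complex.ofReal_im, Complex.add_re, Complex.add_im,
      Complex.neg_re, Complex.neg_im] at *
    set n := ‖v‖ with hn'
    set k := kap v w
    have h3 : (e.re * e.re + e.im * e.im) = 1 := by linarith
    field_simp
    have : n ^ 2 = (v.re * v.re + v.im * v.im) * (e.re * e.re + e.im * e.im) := by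
      rw [h3, h2]; ring
    rw [this]
    ring
  have key2 : inner ℝ (Complex.I * e) w * inner ℝ e v
        - inner ℝ (Complex.I * e) v * inner ℝ e w = kap v w * ‖v‖ ^ 3 := by
    rw [kap_eq w hv0]
    have h3 : (e.re * e.re + e.im * e.im) = 1 := by linarith
    simp only [inner_eq, Complex.mul_re, Complex.mul_im, Complex.I_re, Complex.I_im]
    field_simp
    linear_combination (v.re * w.im - v.im * w.re) * h3
  rw [key, key2]
  have h5 := ph''_nonneg m (slp e v)
  have : kap v w * ‖v‖ ^ 3 / inner ℝ e v ^ 2 *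
      (ph'' m (slp e v) * (kap v w * ‖v‖ / inner ℝ e v)) =
      ph'' m (slp e v) * (kap v w) ^ 2 * ‖v‖ ^ 4 / inner ℝ e v ^ 3 := by
    field_simp
  rw [this]
  positivity

lemma slp_deriv {f f' : ℝ → ℂ} {x : ℝ} {s : Set ℝ} {e : ℂ}
    (hf : HasDerivWithinAt f (f' x) s x) (h0 : inner ℝ e (f x) ≠ 0) :
    HasDerivWithinAt (fun x => slp e (f x)) ((inner ℝ (Complex.I * e) (f' x) * inner ℝ e (f x)
        - inner ℝ (Complex.I * e) (f x) * inner ℝ e (f' x)) / inner ℝ e (f x) ^ 2) s x := by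
  have h1 := (hasDerivWithinAt_const x s (Complex.I * e)).inner (𝕜 := ℝ) hf
  have h2 := (hasDerivWithinAt_const x s e).inner (𝕜 := ℝ) hf
  have h3 : HasDerivWithinAt (fun x => slp e (f x)) _ s x := h1.div h2 h0
  refine h3.congr_deriv ?_
  simp only [inner_zero_left, add_zero]

/-- Evolution of the anisotropic length. -/
lemma slope_deriv {u ux uxx ut : ℝ → ℝ → ℂ} (hu : CData u ux uxx ut)
    (hmot : ∀ t > 0, ∀ x ∈ Icc (0:ℝ) 1, Moves (ux t x) (uxx t x) (ut t x))
    {a b m : ℝ} {e : ℂ} (he : ‖e‖ = 1) (ha : 0 ≤ a)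
    (hpos : ∀ s ∈ Ioo a b, ∀ x ∈ Icc (0:ℝ) 1, 0 < inner ℝ e (ux s x))
    {t : ℝ} (ht : t ∈ Ioo a b) :
    ∃ D ≥ 0, HasDerivAt (fun s => ∫ x in (0:ℝ)..1, gg m e (ux s x))
      (inner ℝ (XX m e (slp e (ux t 1))) (ut t 1) - inner ℝ (XX m e (slp e (ux t 0))) (ut t 0)
        - D) t := by
  have hsub : Ioo a b ⊆ Ioi (0:ℝ) := fun s hs => ha.trans_lt hs.1
  have cu := hu.cx.mono (prod_mono hsub (Subset.refl (Icc (0:ℝ) 1)))
  have cuu := hu.cxx.mono (prod_mono hsub (Subset.refl (Icc (0:ℝ) 1)))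
  have cI : ∀ c : ℂ, ContinuousOn (fun p : ℝ × ℝ => (inner ℝ c (ux p.1 p.2) : ℝ))
      (Ioo a b ×ˢ Icc (0:ℝ) 1) := fun c => continuousOn_const.inner (𝕜 := ℝ) cu
  have cII : ∀ c : ℂ, ContinuousOn (fun p : ℝ × ℝ => (inner ℝ c (uxx p.1 p.2) : ℝ))
      (Ioo a b ×ˢ Icc (0:ℝ) 1) := fun c => continuousOn_const.inner (𝕜 := ℝ) cuu
  have hne : ∀ p ∈ Ioo a b ×ˢ Icc (0:ℝ) 1, inner ℝ e (ux p.1 p.2) ≠ 0 := fun p hp =>
    (hpos p.1 hp.1 p.2 hp.2).ne'
  have cslp : ContinuousOn (fun p : ℝ × ℝ => slp e (ux p.1 p.2)) (Ioo a b ×ˢ Icc (0:ℝ) 1) :=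
    (cI _).div (cI _) hne
  have cXX : Continuous (XX m e) :=
    continuous_iff_continuousAt.2 fun y => (XX_deriv m e y).continuousAt
  refine ⟨_, ?_, first_variation hu ha (g := gg m e) (X := fun s x => XX m e (slp e (ux s x)))
    (Z := fun s x => ((inner ℝ (Complex.I * e) (uxx s x) * inner ℝ e (ux s x)
        - inner ℝ (Complex.I * e) (ux s x) * inner ℝ e (uxx s x)) / inner ℝ e (ux s x) ^ 2) •
      (ph'' m (slp e (ux s x)) • (-(slp e (ux s x) • e) + Complex.I * e)))
    (fun s hs x hx => ?_) (cXX.comp_continuousOn cslp) ?_ ?_ ?_ ht⟩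
  · apply intervalIntegral.integral_nonneg zero_le_one
    intro x hx
    exact slope_integrand he (hpos t ht x hx) (hmot t (hsub ht) x hx)
  · exact HasDerivAt.scomp_hasDerivWithinAt (h := fun x => slp e (ux s x)) x (XX_deriv m e _)
      (slp_deriv (hu.hxx s (hsub hs) x hx) (hpos s hs x hx).ne')
  · have c1 : ContinuousOn (fun p : ℝ × ℝ => ph'' m (slp e (ux p.1 p.2)))
        (Ioo a b ×ˢ Icc (0:ℝ) 1) := (ph''_cont m).comp_continuousOn cslp
    refine ContinuousOn.smul (ContinuousOn.div (((cII _).mul (cI _)).sub ((cI _).mul (cII _)))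
      ((cI _).pow 2) (fun p hp => pow_ne_zero 2 (hne p hp))) (c1.smul
        (((cslp.smul continuousOn_const).neg).add continuousOn_const))
  · exact (cI _).mul ((ph_cont m).comp_continuousOn cslp)
  · intro s hs s' hs' x hx
    exact gg_subgradient m (hpos s hs x hx) (hpos s' hs' x hx)

/-- Evolution of the area swept out, seen from the origin. -/
lemma area_deriv {u ux uxx ut : ℝ → ℝ → ℂ} (hu : CData u ux uxx ut)
    (hreg : ∀ t > 0, ∀ x ∈ Icc (0:ℝ) 1, ux t x ≠ 0)
    (hmot : ∀ t > 0, ∀ x ∈ Icc (0:ℝ) 1, Moves (ux t x) (uxx t x) (ut t x)) {t : ℝ} (ht : 0 < t) :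
    HasDerivAt (fun s => ∫ x in (0:ℝ)..1, inner ℝ (Complex.I * u s x) (ux s x))
      (inner ℝ (Complex.I * u t 1) (ut t 1) - inner ℝ (Complex.I * u t 0) (ut t 0)
        - 2 * ∫ x in (0:ℝ)..1, kap (ux t x) (uxx t x) * ‖ux t x‖) t := by
  have hsub : Ioo 0 (t + 1) ⊆ Ioi (0:ℝ) := fun s hs => hs.1
  have cu := hu.cx.mono (prod_mono hsub (Subset.refl (Icc (0:ℝ) 1)))
  have ht' : t ∈ Ioo 0 (t + 1) := ⟨ht, by linarith⟩
  have h01 : (0:ℝ) ∈ Icc (0:ℝ) 1 := ⟨le_refl _, zero_le_one⟩
  have h11 : (1:ℝ) ∈ Icc (0:ℝ) 1 := ⟨zero_le_one, le_refl _⟩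
  have hdu : ∀ x ∈ Icc (0:ℝ) 1, HasDerivAt (fun s => u s x - u t x) (ut t x) t := fun x hx =>
    (hu.ht t ht x hx).sub_const _
  have cuc : ∀ s > 0, ContinuousOn (u s) (Icc 0 1) := fun s hs x hx =>
      (hu.hx s hs x hx).continuousWithinAt
  have cux : ∀ s > 0, ContinuousOn (ux s) (Icc 0 1) := fun s hs =>
    slice_cont (J := Ioi 0) hs hu.cx
  have d1 := hasDerivAt_integral_inner hu (a := 0) (b := t + 1) le_rfl ht'
    (Y := fun s x => -(Complex.I * ux s x)) ((continuousOn_const.mul cu).neg)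
  have d2 := hasDerivAt_integral_inner hu (a := 0) (b := t + 1) le_rfl ht'
    (Y := fun s x => -(Complex.I * ux t x)) (by
      have : (fun p : ℝ × ℝ => -(Complex.I * ux t p.2)) =
        (fun x => -(Complex.I * ux t x)) ∘ Prod.snd := rfl
      rw [this]
      exact ((continuousOn_const.mul (cux t ht)).neg).comp continuous_snd.continuousOn
        (fun p hp => hp.2))
  have d3 := hasDerivAt_inner_zero (Y := fun _ => Complex.I * u t 1) continuousAt_const
      (hdu 1 h11) (sub_self _)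
  have d4 := hasDerivAt_inner_zero (Y := fun _ => Complex.I * u t 0) continuousAt_const
      (hdu 0 h01) (sub_self _)
  have d5 := ((d1.add d2).add (d3.sub d4)).add_const
    (∫ x in (0:ℝ)..1, inner ℝ (Complex.I * u t x) (ux t x))
  refine (d5.congr_of_eventuallyEq ?_).congr_deriv ?_
  · filter_upwards [lt_mem_nhds ht] with s hs
    simp only [Pi.add_apply, Pi.sub_apply]
    have hd : ∀ x ∈ Icc (0:ℝ) 1, HasDerivWithinAt
        (fun x => inner ℝ (Complex.I * u t x) (u s x - u t x))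
        (inner ℝ (Complex.I * u t x) (ux s x - ux t x) +
          inner ℝ (Complex.I * ux t x) (u s x - u t x)) (Icc 0 1) x := fun x hx =>
      ((hu.hx t ht x hx).const_mul Complex.I).inner (𝕜 := ℝ)
        ((hu.hx s hs x hx).sub (hu.hx t ht x hx))
    have c1 := cuc t ht
    have c2 := cuc s hs
    have c3 := cux t ht
    have c4 := cux s hs
    have cA : ContinuousOn (fun x => (inner ℝ (Complex.I * u t x) (ux s x - ux t x) : ℝ))
      (Icc 0 1) := by fun_prop
    have cB : ContinuousOn (fun x => (inner ℝ (Complex.I * ux t x) (u s x - u t x) : ℝ))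
      (Icc 0 1) := by fun_prop
    have cC : ContinuousOn (fun x => (inner ℝ (-(Complex.I * ux s x)) (u s x - u t x) : ℝ))
      (Icc 0 1) := by fun_prop
    have cD : ContinuousOn (fun x => (inner ℝ (-(Complex.I * ux t x)) (u s x - u t x) : ℝ))
      (Icc 0 1) := by fun_prop
    have cE : ContinuousOn (fun x => (inner ℝ (Complex.I * u t x) (ux t x) : ℝ))
      (Icc 0 1) := by fun_prop
    have h := ftc hd (cA.add cB)
    rw [intervalIntegral.integral_add (intervalIntegrable_of_cont cA)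
      (intervalIntegrable_of_cont cB)] at h
    rw [← h]
    have iA := intervalIntegrable_of_cont cA
    have iB := intervalIntegrable_of_cont cB
    have iC := intervalIntegrable_of_cont cC
    have iD := intervalIntegrable_of_cont cD
    have iE := intervalIntegrable_of_cont cE
    rw [← intervalIntegral.integral_add iC iD, ← intervalIntegral.integral_add iA iB,
      ← intervalIntegral.integral_add (iC.add iD) (iA.add iB),
      ← intervalIntegral.integral_add ((iC.add iD).add (iA.add iB)) iE]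
    refine intervalIntegral.integral_congr (fun x _ => ?_)
    simp only [inner_eq, Complex.mul_re, Complex.mul_im, Complex.I_re, Complex.I_im,
      Complex.neg_re, Complex.neg_im, Complex.sub_re, Complex.sub_im]
    ring
  · have e1 : ∫ x in (0:ℝ)..1, inner ℝ (-(Complex.I * ux t x)) (ut t x) =
        - ∫ x in (0:ℝ)..1, kap (ux t x) (uxx t x) * ‖ux t x‖ := by
      rw [← intervalIntegral.integral_neg]
      refine intervalIntegral.integral_congr (fun x hx => ?_)
      rw [uIcc_of_le zero_le_one] at hx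
      obtain ⟨l, hl⟩ := hmot t ht x hx
      have h0 := hreg t ht x hx
      have hn : ‖ux t x‖ ≠ 0 := norm_ne_zero_iff.2 h0
      have h2 := norm_sq_eq (ux t x)
      show inner ℝ (-(Complex.I * ux t x)) (ut t x) = -(kap (ux t x) (uxx t x) * ‖ux t x‖)
      rw [hl]
      simp only [inner_eq, Complex.mul_re, Complex.mul_im, Complex.I_re, Complex.I_im,
        Complex.real_smul, Complex.ofReal_re, Complex.ofReal_im, Complex.add_re, Complex.add_im,
        Complex.neg_re, Complex.neg_im]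
      field_simp
      linear_combination (kap (ux t x) (uxx t x)) * h2
    rw [e1]
    ring

/-- The total curvature is the variation of the angle. -/
lemma total_curvature {u ux uxx ut : ℝ → ℝ → ℂ} (hu : CData u ux uxx ut)
    {e : ℂ} (he : ‖e‖ = 1) {t : ℝ} (ht : 0 < t)
    (hpos : ∀ x ∈ Icc (0:ℝ) 1, 0 < inner ℝ e (ux t x)) :
    ∫ x in (0:ℝ)..1, kap (ux t x) (uxx t x) * ‖ux t x‖ =
      Real.arctan (slp e (ux t 1)) - Real.arctan (slp e (ux t 0)) := by
  have hd : ∀ x ∈ Icc (0:ℝ) 1, HasDerivWithinAt (fun x => Real.arctan (slp e (ux t x)))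
      (1 / (1 + slp e (ux t x) ^ 2) * ((inner ℝ (Complex.I * e) (uxx t x) * inner ℝ e (ux t x)
        - inner ℝ (Complex.I * e) (ux t x) * inner ℝ e (uxx t x)) / inner ℝ e (ux t x) ^ 2))
      (Icc 0 1) x := fun x hx =>
    (slp_deriv (hu.hxx t ht x hx) (hpos x hx).ne').arctan
  have heq : ∀ x ∈ Icc (0:ℝ) 1, (1 / (1 + slp e (ux t x) ^ 2) *
      ((inner ℝ (Complex.I * e) (uxx t x) * inner ℝ e (ux t x)
        - inner ℝ (Complex.I * e) (ux t x) * inner ℝ e (uxx t x)) / inner ℝ e (ux t x) ^ 2)) =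
      kap (ux t x) (uxx t x) * ‖ux t x‖ := by
    intro x hx
    have hv := hpos x hx
    have hv0 : ux t x ≠ 0 := by intro h; rw [h] at hv; simp at hv
    have hn : ‖ux t x‖ ≠ 0 := norm_ne_zero_iff.2 hv0
    set v := ux t x
    set w := uxx t x
    have h2 := norm_sq_eq v
    have h1 := norm_sq_eq e
    rw [he] at h1
    have h3 : (e.re * e.re + e.im * e.im) = 1 := by linarith
    have h4 : inner ℝ e v ^ 2 + inner ℝ (Complex.I * e) v ^ 2 = ‖v‖ ^ 2 := by
      rw [h2]
      simp only [inner_eq, Complex.mul_re, Complex.mul_im, Complex.I_re, Complex.I_im]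
      have : v.re * v.re + v.im * v.im = (v.re * v.re + v.im * v.im) *
        (e.re * e.re + e.im * e.im) := by rw [h3]; ring
      rw [this]; ring
    have h5 : inner ℝ (Complex.I * e) w * inner ℝ e v
        - inner ℝ (Complex.I * e) v * inner ℝ e w = kap v w * ‖v‖ ^ 3 := by
      rw [kap_eq w hv0]
      simp only [inner_eq, Complex.mul_re, Complex.mul_im, Complex.I_re, Complex.I_im]
      field_simp
      linear_combination (v.re * w.im - v.im * w.re) * h3
    rw [h5]
    have h6 : 1 + slp e v ^ 2 = ‖v‖ ^ 2 / inner ℝ e v ^ 2 := by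
      rw [slp, ← h4]; field_simp
    rw [h6]
    field_simp
  have cu : ContinuousOn (ux t) (Icc 0 1) := slice_cont (J := Ioi 0) ht hu.cx
  have cuu : ContinuousOn (uxx t) (Icc 0 1) := slice_cont (J := Ioi 0) ht hu.cxx
  have hne : ∀ x ∈ Icc (0:ℝ) 1, inner ℝ e (ux t x) ≠ 0 := fun x hx => (hpos x hx).ne'
  rw [← ftc hd]
  · refine intervalIntegral.integral_congr (fun x hx => ?_)
    rw [uIcc_of_le zero_le_one] at hx
    exact (heq x hx).symm
  · have cI : ∀ c : ℂ, ContinuousOn (fun x => (inner ℝ c (ux t x) : ℝ)) (Icc (0:ℝ) 1) :=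
      fun c => continuousOn_const.inner (𝕜 := ℝ) cu
    have cII : ∀ c : ℂ, ContinuousOn (fun x => (inner ℝ c (uxx t x) : ℝ)) (Icc (0:ℝ) 1) :=
      fun c => continuousOn_const.inner (𝕜 := ℝ) cuu
    have cslp : ContinuousOn (fun x => slp e (ux t x)) (Icc (0:ℝ) 1) := (cI _).div (cI _) hne
    refine ContinuousOn.mul (continuousOn_const.div (continuousOn_const.add (cslp.pow 2))
      (fun x hx => by positivity)) (ContinuousOn.div (((cII _).mul (cI _)).sub ((cI _).mul (cII _)))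
      ((cI _).pow 2) (fun x hx => pow_ne_zero 2 (hne x hx)))

end Pool.Agent.R732.Net
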