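import Pool.Agent.R732.Net.Core3
import Pool.Agent.R732.Net.Defs

/-! Parametrisation proportional to arclength. -/

open Set Filter Topology MeasureTheory

namespace Pool.Agent.R732.Net

lemma exists_reparam {f : ℝ → ℂ} (hf : ContinuousOn f (Icc 0 1))
    (h0 : ∀ x ∈ Icc (0:ℝ) 1, f x ≠ 0) :
    ∃ θ : ℝ → ℝ, IsReparam θ ∧ ∀ x ∈ Icc (0:ℝ) 1,
      HasDerivWithinAt θ ((∫ y in (0:ℝ)..1, ‖f y‖) / ‖f (θ x)‖) (Icc 0 1) x := by
  set cl : ℝ → ℝ := fun x => max 0 (min x 1) with hcl
  have hclm : ∀ x, cl x ∈ Icc (0:ℝ) 1 := fun x =>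
    ⟨le_max_left _ _, max_le zero_le_one (min_le_right _ _)⟩
  have hcle : ∀ x ∈ Icc (0:ℝ) 1, cl x = x := fun x hx => by
    simp only [hcl, min_eq_left hx.2, max_eq_right hx.1]
  have hclc : Continuous cl := by fun_prop
  set v : ℝ → ℝ := fun x => ‖f (cl x)‖ with hv
  have hvc : Continuous v := (hf.comp_continuous hclc hclm).norm
  have hvpos : ∀ x, 0 < v x := fun x => norm_pos_iff.2 (h0 _ (hclm x))
  obtain ⟨c, hc, hcv⟩ : ∃ c > 0, ∀ x, c ≤ v x := by
    obtain ⟨z, hz, hmin⟩ := isCompact_Icc.exists_isMinOn (nonempty_Icc.2 zero_le_one) hf.norm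
    refine ⟨‖f z‖, norm_pos_iff.2 (h0 z hz), fun x => hmin (hclm x)⟩
  set S : ℝ → ℝ := fun x => ∫ y in (0:ℝ)..x, v y with hS
  have hSd : ∀ x, HasDerivAt S (v x) x := fun x => hvc.integral_hasStrictDerivAt 0 x |>.hasDerivAt
  have hSc : Continuous S := continuous_iff_continuousAt.2 fun x => (hSd x).continuousAt
  have hSm : StrictMono S := strictMono_of_deriv_pos (fun x => by rw [(hSd x).deriv]; exact hvpos x)
  have hS0 : S 0 = 0 := by simp [hS]
  have hmono : Monotone (fun x => S x - c * x) := by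
    have hd : ∀ x, HasDerivAt (fun x => S x - c * x) (v x - c) x := fun x => by
      have h1 : HasDerivAt (fun x => S x - c * x) _ x := (hSd x).sub ((hasDerivAt_id x).const_mul c)
      exact h1.congr_deriv (by ring)
    exact monotone_of_deriv_nonneg (fun x => (hd x).differentiableAt)
      (fun x => by rw [(hd x).deriv]; linarith [hcv x])
  have htop : Tendsto S atTop atTop := by
    refine tendsto_atTop_mono' _ ?_ (tendsto_id.const_mul_atTop hc)
    filter_upwards [eventually_ge_atTop 0] with x hx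
    have := hmono hx
    simp only [hS0, mul_zero, sub_zero] at this
    simp only [id]; linarith
  have hbot : Tendsto S atBot atBot := by
    refine tendsto_atBot_mono' _ ?_ (tendsto_id.const_mul_atBot hc)
    filter_upwards [eventually_le_atBot 0] with x hx
    have := hmono hx
    simp only [hS0, mul_zero, sub_zero] at this
    simp only [id]; linarith
  set E := (hSm.orderIsoOfSurjective S (hSc.surjective htop hbot)) with hE
  set T : ℝ → ℝ := fun z => E.symm z with hT
  have hST : ∀ z, S (T z) = z := fun z => E.apply_symm_apply z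
  have hTS : ∀ x, T (S x) = x := fun x => E.symm_apply_apply x
  have hTc : Continuous T := E.symm.continuous
  have hTd : ∀ z, HasDerivAt T (v (T z))⁻¹ z := fun z =>
    (hSd (T z)).of_local_left_inverse hTc.continuousAt (hvpos _).ne'
      (Eventually.of_forall hST)
  have hTm : StrictMono T := E.symm.strictMono
  set L : ℝ := ∫ y in (0:ℝ)..1, ‖f y‖ with hL
  have hLS : L = S 1 := by
    refine intervalIntegral.integral_congr (fun x hx => ?_)
    rw [uIcc_of_le zero_le_one] at hx
    simp only [hv, hcle x hx]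
  have hLpos : 0 < L := by
    rw [hLS, ← hS0]; exact hSm zero_lt_one
  have hmem : ∀ y ∈ Icc (0:ℝ) 1, T (L * y) ∈ Icc (0:ℝ) 1 := by
    intro y hy
    constructor
    · rw [← hTS 0, hS0]
      exact hTm.monotone (mul_nonneg hLpos.le hy.1)
    · calc T (L * y) ≤ T (S 1) := hTm.monotone (by rw [← hLS]; nlinarith [hy.2])
        _ = 1 := hTS 1
  have hd : ∀ y, HasDerivAt (fun y => T (L * y)) (L / v (T (L * y))) y := by
    intro y
    have h1 : HasDerivAt (fun y => T (L * y)) _ y :=
      (hTd (L * y)).comp y ((hasDerivAt_id y).const_mul L)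
    refine h1.congr_deriv ?_
    rw [mul_one, inv_mul_eq_div]
  have hveq : ∀ y ∈ Icc (0:ℝ) 1, v (T (L * y)) = ‖f (T (L * y))‖ := fun y hy => by
    simp only [hv, hcle _ (hmem y hy)]
  refine ⟨fun y => T (L * y), ⟨?_, fun y hy => ?_, ⟨fun y hy => hmem y hy, ?_, ?_⟩, ?_, ?_⟩,
    fun y hy => ?_⟩
  · apply ContDiff.contDiffOn
    rw [contDiff_one_iff_deriv]
    refine ⟨fun y => (hd y).differentiableAt, ?_⟩
    have : deriv (fun y => T (L * y)) = fun y => L / v (T (L * y)) := funext fun y => (hd y).deriv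
    rw [this]
    exact continuous_const.div (hvc.comp (hTc.comp (continuous_const.mul continuous_id)))
      (fun y => (hvpos _).ne')
  · rw [(hd y).hasDerivWithinAt.derivWithin ((uniqueDiffOn_Icc zero_lt_one) y hy)]
    exact div_pos hLpos (hvpos _)
  · intro y _ z _ hyz
    exact mul_left_cancel₀ hLpos.ne' (hTm.injective hyz)
  · intro x hx
    refine ⟨S x / L, ⟨div_nonneg ?_ hLpos.le, ?_⟩, ?_⟩
    · rw [← hS0]; exact hSm.monotone hx.1
    · rw [div_le_one hLpos, hLS]; exact hSm.monotone hx.2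
    · show T (L * (S x / L)) = x
      rw [mul_div_cancel₀ _ hLpos.ne', hTS]
  · show T (L * 0) = 0
    have := hTS 0
    rw [hS0] at this
    rw [mul_zero, this]
  · show T (L * 1) = 1
    rw [mul_one, hLS, hTS]
  · have := (hd y).hasDerivWithinAt (s := Icc 0 1)
    rw [hveq y hy] at this
    exact this

variable {ι W : Type*} [Fintype ι] [Fintype W] [DecidableEq W]
  {u ux uxx ut : ι → ℝ → ℝ → ℂ} {vtx : ι × Bool → W} {p : W → ℝ → ℂ} {Bd : Set W}

lemma Lim.chord_eq {e : ι → ℂ} {q : W → ℂ} (he : Dirs vtx Bd e) (hq : Lim vtx Bd p e q) (i : ι) :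
    q (vtx (i, true)) - q (vtx (i, false)) =
      ‖q (vtx (i, true)) - q (vtx (i, false))‖ • e i := by
  have h1 := decomp (he.norm i) (q (vtx (i, true)) - q (vtx (i, false)))
  rw [hq.perp i, zero_smul, add_zero] at h1
  have h2 : ‖q (vtx (i, true)) - q (vtx (i, false))‖ =
      inner ℝ (e i) (q (vtx (i, true)) - q (vtx (i, false))) := by
    have h3 := pyth (he.norm i) (q (vtx (i, true)) - q (vtx (i, false)))
    rw [hq.perp i] at h3
    have h4 : ‖q (vtx (i, true)) - q (vtx (i, false))‖ ^ 2 =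
      inner ℝ (e i) (q (vtx (i, true)) - q (vtx (i, false))) ^ 2 := by rw [← h3]; ring
    exact (sq_eq_sq₀ (norm_nonneg _) (hq.nonneg i)).1 h4
  rw [h2]
  exact h1

/-- Convergence of the lengths. -/
lemma AFlow.length_conv (h : AFlow u ux uxx ut vtx p Bd) {e : ι → ℂ} (he : Dirs vtx Bd e)
    (hc : ConvDir ux e) {q : W → ℂ} (hq : ∀ w, Tendsto (p w) atTop (𝓝 (q w)))
    (hL : Lim vtx Bd p e q) (i : ι) :
    Tendsto (fun t => ∫ x in (0:ℝ)..1, ‖ux i t x‖) atTop
      (𝓝 ‖q (vtx (i, true)) - q (vtx (i, false))‖) := by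
  have hlen := AFlow.Len_nonneg ux 1
  set ℓ := ‖q (vtx (i, true)) - q (vtx (i, false))‖ with hℓ
  have h1 : Tendsto (fun t => (inner ℝ (e i) (p (vtx (i, true)) t - p (vtx (i, false)) t) : ℝ))
      atTop (𝓝 ℓ) := by
    have h2 : Tendsto (fun t => (inner ℝ (e i) (p (vtx (i, true)) t - p (vtx (i, false)) t) : ℝ))
      atTop (𝓝 (inner ℝ (e i) (q (vtx (i, true)) - q (vtx (i, false))))) :=
      tendsto_const_nhds.inner (𝕜 := ℝ) ((hq _).sub (hq _))
    have h3 : inner ℝ (e i) (q (vtx (i, true)) - q (vtx (i, false))) = ℓ := by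
      rw [hL.chord_eq he i, real_inner_smul_right, real_inner_self_eq_norm_sq, he.norm i]
      rw [← hℓ]; ring
    rwa [h3] at h2
  have h2 : Tendsto (fun t => (∫ x in (0:ℝ)..1, ‖ux i t x‖) -
      inner ℝ (e i) (p (vtx (i, true)) t - p (vtx (i, false)) t)) atTop (𝓝 0) := by
    rw [Metric.tendsto_atTop']
    intro ε hε
    obtain ⟨T, hT, hcone⟩ := hc (ε / (AFlow.Len ux 1 + 1)) (by positivity)
    refine ⟨max T 1, fun t ht => ?_⟩
    have ht1 : T < t := lt_of_le_of_lt (le_max_left _ _) ht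
    have ht2 : 1 < t := lt_of_le_of_lt (le_max_right _ _) ht
    have ht0 : 0 < t := by linarith
    have hm : 0 < ε / (AFlow.Len ux 1 + 1) := by positivity
    have h0 := h.ends_diff ht0 (i, false)
    simp only [Bool.not_false, sgn, cond_false, one_smul] at h0
    have cux := h.cux ht0 i
    rw [h0, ← h.ftcI ht0 i, ← intervalIntegral.integral_sub (intervalIntegrable_of_cont cux.norm)
      (intervalIntegrable_of_cont (continuousOn_const.inner (𝕜 := ℝ) cux)), Real.dist_eq, sub_zero]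
    have hb : ∀ x ∈ Icc (0:ℝ) 1, |‖ux i t x‖ - inner ℝ (e i) (ux i t x)| ≤
        (ε / (AFlow.Len ux 1 + 1)) * ‖ux i t x‖ := by
      intro x hx
      have h3 := hcone t ht1.le i x hx
      have h4 : inner ℝ (e i) (ux i t x) ≤ ‖ux i t x‖ := by
        refine (real_inner_le_norm _ _).trans ?_
        rw [he.norm, one_mul]
      have h5 := pos_of_cone (he.norm i) (h.reg i t ht0 x hx) hm h3
      have h6 : ‖ux i t x‖ ≤ inner ℝ (e i) (ux i t x) + |inner ℝ (Complex.I * e i) (ux i t x)| := by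
        calc ‖ux i t x‖ = ‖(inner ℝ (e i) (ux i t x)) • e i +
              (inner ℝ (Complex.I * e i) (ux i t x)) • (Complex.I * e i)‖ := by
              rw [← decomp (he.norm i)]
          _ ≤ _ := norm_add_le _ _
          _ = _ := by
              rw [norm_smul, norm_smul, norm_I_mul, he.norm, mul_one, mul_one, Real.norm_eq_abs,
                Real.norm_eq_abs, abs_of_pos h5]
      rw [abs_of_nonneg (by linarith)]
      have h7 := mul_le_mul_of_nonneg_left h4 hm.le
      linarith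
    calc |∫ x in (0:ℝ)..1, (‖ux i t x‖ - inner ℝ (e i) (ux i t x))|
        ≤ ∫ x in (0:ℝ)..1, |‖ux i t x‖ - inner ℝ (e i) (ux i t x)| :=
          intervalIntegral.abs_integral_le_integral_abs zero_le_one
      _ ≤ ∫ x in (0:ℝ)..1, (ε / (AFlow.Len ux 1 + 1)) * ‖ux i t x‖ :=
          intervalIntegral.integral_mono_on zero_le_one (intervalIntegrable_of_cont
            (cux.norm.sub (continuousOn_const.inner (𝕜 := ℝ) cux)).abs)
            ((intervalIntegrable_of_cont cux.norm).const_mul _) hb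
      _ = (ε / (AFlow.Len ux 1 + 1)) * ∫ x in (0:ℝ)..1, ‖ux i t x‖ :=
          intervalIntegral.integral_const_mul _ _
      _ ≤ (ε / (AFlow.Len ux 1 + 1)) * AFlow.Len ux 1 :=
          mul_le_mul_of_nonneg_left (h.len_le ht2.le i) hm.le
      _ < ε := by
          rw [div_mul_eq_mul_div, div_lt_iff₀ (by positivity)]
          nlinarith
  have h3 := h2.add h1
  rw [zero_add] at h3
  refine h3.congr (fun t => ?_)
  ring

/-- `C¹` convergence in the parametrisation proportional to arclength. -/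
lemma AFlow.c1_conv (h : AFlow u ux uxx ut vtx p Bd) {e : ι → ℂ} (he : Dirs vtx Bd e)
    (hc : ConvDir ux e) {q : W → ℂ} (hq : ∀ w, Tendsto (p w) atTop (𝓝 (q w)))
    (hL : Lim vtx Bd p e q) (i : ι) {ε : ℝ} (hε : 0 < ε) :
    ∀ᶠ t in atTop, ∀ θ : ℝ → ℝ, IsReparam θ → (∀ x ∈ Icc (0:ℝ) 1,
      HasDerivWithinAt θ ((∫ y in (0:ℝ)..1, ‖ux i t y‖) / ‖ux i t (θ x)‖) (Icc 0 1) x) →
      ∀ x ∈ Icc (0:ℝ) 1,
        ‖u i t (θ x) - seg (q (vtx (i, false))) (q (vtx (i, true))) x‖ < ε ∧
        ‖dX (fun y => u i t (θ y)) x -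
          dX (seg (q (vtx (i, false))) (q (vtx (i, true)))) x‖ < ε := by
  have hlen := AFlow.Len_nonneg ux 1
  set a := q (vtx (i, false)) with ha
  set b := q (vtx (i, true)) with hb
  have hchord : b - a = ‖b - a‖ • e i := hL.chord_eq he i
  have hlc := h.length_conv he hc hq hL i
  rw [← ha, ← hb] at hlc
  obtain ⟨T, hT, hcone⟩ := hc (ε / (8 * (AFlow.Len ux 1 + 1))) (by positivity)
  have h1 : ∀ᶠ t in atTop, |(∫ x in (0:ℝ)..1, ‖ux i t x‖) - ‖b - a‖| < ε / 4 := by
    have := hlc.eventually (Metric.ball_mem_nhds _ (by positivity : 0 < ε / 4))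
    filter_upwards [this] with t ht
    rwa [Real.dist_eq] at ht
  have h2 : ∀ᶠ t in atTop, ‖u i t 0 - a‖ < ε / 4 := by
    have := (hq (vtx (i, false))).eventually (Metric.ball_mem_nhds _ (by positivity : 0 < ε / 4))
    filter_upwards [this, eventually_gt_atTop 0] with t ht ht0
    rw [dist_eq_norm, ← h.pos (i, false) t ht0] at ht
    exact ht
  filter_upwards [h1, h2, eventually_ge_atTop (max T 1)] with t h1 h2 ht θ hθ hθd x hx
  have ht1 : 1 ≤ t := (le_max_right _ _).trans ht
  have ht0 : 0 < t := by linarith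
  have hmpos : 0 < ε / (8 * (AFlow.Len ux 1 + 1)) := by positivity
  set L := ∫ x in (0:ℝ)..1, ‖ux i t x‖ with hLdef
  have hLn : 0 ≤ L := intervalIntegral.integral_nonneg zero_le_one (fun _ _ => norm_nonneg _)
  have hLle : L ≤ AFlow.Len ux 1 := h.len_le ht1 i
  have hd : ∀ y ∈ Icc (0:ℝ) 1, HasDerivWithinAt (fun y => u i t (θ y))
      (L • un (ux i t (θ y))) (Icc 0 1) y := by
    intro y hy
    have h3 := HasDerivWithinAt.scomp (g₁ := u i t) y ((h.data i).hx t ht0 (θ y) (hθ.bij.mapsTo hy))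
      (hθd y hy) hθ.bij.mapsTo
    refine h3.congr_deriv ?_
    rw [un, smul_smul, div_eq_mul_inv]
  have hbd : ∀ y ∈ Icc (0:ℝ) 1, ‖L • un (ux i t (θ y)) - (b - a)‖ ≤ ε / 2 := by
    intro y hy
    have h4 := close_of_cone (he.norm i) (h.reg i t ht0 _ (hθ.bij.mapsTo hy)) hmpos
      (hcone t ((le_max_left _ _).trans ht) i _ (hθ.bij.mapsTo hy))
    have h5 : L • un (ux i t (θ y)) - (b - a) =
        L • (un (ux i t (θ y)) - e i) + (L - ‖b - a‖) • e i := by
      rw [smul_sub, sub_smul, ← hchord]; ring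
    rw [h5]
    refine (norm_add_le _ _).trans ?_
    rw [norm_smul, norm_smul, he.norm, mul_one, Real.norm_eq_abs, Real.norm_eq_abs,
      abs_of_nonneg hLn]
    have h6 : L * ‖un (ux i t (θ y)) - e i‖ ≤ ε / 4 := by
      calc L * ‖un (ux i t (θ y)) - e i‖ ≤
            (AFlow.Len ux 1 + 1) * (2 * (ε / (8 * (AFlow.Len ux 1 + 1)))) :=
            mul_le_mul (by linarith) h4 (norm_nonneg _) (by positivity)
        _ = ε / 4 := by field_simp; norm_num
    linarith
  have hseg : ∀ y, HasDerivAt (seg a b) (b - a) y := by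
    intro y
    have h3 : HasDerivAt (seg a b) _ y :=
      ((hasDerivAt_id y).smul_const (b - a)).const_add a
    refine h3.congr_deriv ?_
    simp
  constructor
  · have h7 := Convex.norm_image_sub_le_of_norm_hasDerivWithin_le
      (f := fun y => u i t (θ y) - seg a b y) (f' := fun y => L • un (ux i t (θ y)) - (b - a))
      (s := Icc (0:ℝ) 1) (x := 0) (y := x) (C := ε / 2)
      (fun y hy => (hd y hy).sub (hseg y).hasDerivWithinAt) hbd (convex_Icc 0 1)
      ⟨le_rfl, zero_le_one⟩ hx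
    simp only [sub_zero, hθ.zero] at h7
    have h8 : seg a b 0 = a := by simp [seg]
    rw [h8] at h7
    have h9 : ‖x‖ ≤ 1 := by rw [Real.norm_eq_abs, abs_of_nonneg hx.1]; exact hx.2
    calc ‖u i t (θ x) - seg a b x‖ =
          ‖(u i t (θ x) - seg a b x - (u i t 0 - a)) + (u i t 0 - a)‖ := by congr 1; ring
      _ ≤ _ := norm_add_le _ _
      _ < ε := by nlinarith
  · have hu := (uniqueDiffOn_Icc (zero_lt_one (α := ℝ))) x hx
    rw [dX, dX, (hd x hx).derivWithin hu, (hseg x).hasDerivWithinAt.derivWithin hu]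
    linarith [hbd x hx]

end Pool.Agent.R732.Net
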